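import Mathlib

/-!
# Complex Hermitian matrices with bounded eigenvalues
-/

set_option autoImplicit false

open Finset

namespace Pool.Agent.R2.CHerm

variable {n : Type*} [Fintype n] [DecidableEq n]

theorem norm_bound (A : Matrix n n ℂ) (hA : A.IsHermitian) (c : ℝ)
    (hc : ∀ i, |hA.eigenvalues i| ≤ c) (w : n → ℂ) :
    ∑ x, ‖A.mulVec w x‖ ^ 2 ≤ c ^ 2 * ∑ x, ‖w x‖ ^ 2 := by
  set b := hA.eigenvectorBasis with hb
  have hT := Matrix.isSymmetric_toEuclideanLin_iff.mpr hA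
  set W : EuclideanSpace ℂ n := WithLp.toLp 2 w with hW
  set AW : EuclideanSpace ℂ n := WithLp.toLp 2 (A.mulVec w) with hAW
  have h1 : ∑ x, ‖A.mulVec w x‖ ^ 2 = ∑ i, ‖inner ℂ (b i) AW‖ ^ 2 := by
    rw [b.sum_sq_norm_inner_right, EuclideanSpace.norm_sq_eq]
  have h2 : ∑ x, ‖w x‖ ^ 2 = ∑ i, ‖inner ℂ (b i) W‖ ^ 2 := by
    rw [b.sum_sq_norm_inner_right, EuclideanSpace.norm_sq_eq]
  rw [h1, h2, Finset.mul_sum]
  refine Finset.sum_le_sum fun i _ => ?_
  have h3 : Matrix.toEuclideanLin A W = AW := by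
    rw [Matrix.toEuclideanLin_apply]
  have h4 : Matrix.toEuclideanLin A (b i) = ((hA.eigenvalues i : ℝ) : ℂ) • b i := by
    rw [Matrix.toEuclideanLin_apply, hb, hA.mulVec_eigenvectorBasis i]
    rfl
  have h5 : inner ℂ (b i) AW = ((hA.eigenvalues i : ℝ) : ℂ) * inner ℂ (b i) W := by
    rw [← h3, ← hT (b i) W, h4, inner_smul_left, Complex.conj_ofReal]
  rw [h5, norm_mul, mul_pow, Complex.norm_real, Real.norm_eq_abs]
  apply mul_le_mul_of_nonneg_right _ (sq_nonneg _)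
  exact pow_le_pow_left₀ (abs_nonneg _) (hc i) 2

theorem basis_ne (A : Matrix n n ℂ) (hA : A.IsHermitian) (i : n) :
    (fun x => hA.eigenvectorBasis i x) ≠ 0 := by
  intro h
  have h1 := hA.eigenvectorBasis.orthonormal.1 i
  have h2 : hA.eigenvectorBasis i = 0 := by
    ext x
    exact congrFun h x
  rw [h2] at h1
  simp at h1

theorem basis_eig (A : Matrix n n ℂ) (hA : A.IsHermitian) (i x : n) :
    ∑ y, A x y * hA.eigenvectorBasis i y
      = ((hA.eigenvalues i : ℝ) : ℂ) * hA.eigenvectorBasis i x := by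
  have := congrFun (hA.mulVec_eigenvectorBasis i) x
  simpa [Matrix.mulVec, dotProduct] using this

end Pool.Agent.R2.CHerm
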