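import Mathlib

/-!
# The commutation equations of the diamond with a path of length two and a pendant vertex
-/

set_option autoImplicit false

namespace Pool.Agent.R2.DiaCore

variable {e α β γ δ f g h Da Db Du Dv Dp Dq Dr : ℝ}
  {Xuv Xup Xuq Xur Xvp Xvq Xvr Xaq Xar Xbp Xbq Xpr Xqr : ℝ}

/-- the value `X_ar` vanishes -/
theorem t_zero (he : e ≠ 0) (hα : α ≠ 0) (hβ : β ≠ 0) (hγ : γ ≠ 0) (hδ : δ ≠ 0) (hf : f ≠ 0)
    (hg : g ≠ 0) (hh : h ≠ 0)
    (ab : f * Xbp = h * Xar)
    (au : β * Xuv + f * Xup = 0)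
    (av : α * Xuv + f * Xvp = 0)
    (ap : e * Xbp + α * Xup + β * Xvp = g * Xaq)
    (aq : Da * Xaq + e * Xbq + α * Xuq + β * Xvq = Dq * Xaq)
    (ar : Da * Xar + α * Xur + β * Xvr + f * Xpr = Dr * Xar)
    (bu : δ * Xuv + h * Xur = 0)
    (bv : γ * Xuv + h * Xvr = 0)
    (bp : Db * Xbp + γ * Xup + δ * Xvp + h * Xpr = Dp * Xbp + g * Xbq)
    (bq : e * Xaq + Db * Xbq + γ * Xuq + δ * Xvq + h * Xqr = g * Xbp + Dq * Xbq)
    (br : e * Xar + γ * Xur + δ * Xvr = 0)
    (uv : Du * Xuv = Dv * Xuv)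
    (up : γ * Xbp + Du * Xup = Dp * Xup + g * Xuq)
    (uq : α * Xaq + γ * Xbq + Du * Xuq = g * Xup + Dq * Xuq)
    (ur : α * Xar + Du * Xur = Dr * Xur)
    (vp : δ * Xbp + Dv * Xvp = Dp * Xvp + g * Xvq)
    (vq : β * Xaq + δ * Xbq + Dv * Xvq = g * Xvp + Dq * Xvq)
    (vr : β * Xar + Dv * Xvr = Dr * Xvr)
    (pq : f * Xaq = 0)
    (pr : f * Xar + Dp * Xpr + g * Xqr = h * Xbp + Dr * Xpr)
    (qr : g * Xpr + Dq * Xqr = h * Xbq + Dr * Xqr) : Xar = 0 := by
  by_contra ht
  have haq : Xaq = 0 := (mul_eq_zero.1 pq).resolve_left hf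
  subst haq
  have F2 : 2 * α * β * Xuv = e * h * Xar := by
    linear_combination (-f) * ap + e * ab + α * au + β * av
  have hUV : Xuv ≠ 0 := by
    intro h0
    rw [h0, mul_zero] at F2
    exact mul_ne_zero (mul_ne_zero he hh) ht F2.symm
  have hDuv : Du = Dv := mul_right_cancel₀ hUV uv
  subst hDuv
  have F3 : 2 * γ * δ * Xuv = e * h * Xar := by
    linear_combination (-h) * br + γ * bu + δ * bv
  have G1 : α * β = γ * δ := by
    have : (α * β - γ * δ) * Xuv = 0 := by linear_combination (F2 - F3) / 2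
    have := (mul_eq_zero.1 this).resolve_right hUV
    linarith
  -- (Du - Dr) δ Xuv = α h Xar
  have F4 : (Du - Dr) * δ * Xuv = α * h * Xar := by
    linear_combination (-h) * ur + (Du - Dr) * bu
  have F5 : (Du - Dr) * γ * Xuv = β * h * Xar := by
    linear_combination (-h) * vr + (Du - Dr) * bv
  have hht : h * Xar ≠ 0 := mul_ne_zero hh ht
  have G2 : α * γ = β * δ := by
    have : (α * γ - β * δ) * (h * Xar) = 0 := by linear_combination δ * F5 - γ * F4
    have := (mul_eq_zero.1 this).resolve_right hht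
    linarith
  have G3 : 2 * α * γ = e * (Du - Dr) := by
    have : (2 * α * γ - e * (Du - Dr)) * (h * Xar) = 0 := by
      linear_combination (-2 * γ) * F4 + (Du - Dr) * F3
    have := (mul_eq_zero.1 this).resolve_right hht
    linarith
  -- β² = γ², α² = δ²
  have G4 : β ^ 2 = γ ^ 2 := by
    have : (β ^ 2 - γ ^ 2) * (α * δ) = 0 := by
      linear_combination (β * δ) * G1 - (γ * δ) * G2
    have := (mul_eq_zero.1 this).resolve_right (mul_ne_zero hα hδ)
    linarith
  have G5 : α ^ 2 = δ ^ 2 := by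
    have : (α ^ 2 - δ ^ 2) * (β * γ) = 0 := by
      linear_combination (α * γ) * G1 + (γ * δ) * G2
    have := (mul_eq_zero.1 this).resolve_right (mul_ne_zero hβ hγ)
    linarith
  -- Db = Da
  have K4' : f * (h * Xpr) = (Dr - Da) * h * Xar + (α * δ + β * γ) * Xuv := by
    linear_combination h * ar - α * bu - β * bv
  have G6 : Db = Da := by
    have : e * (Db - Da) * (h * Xar) = 0 := by
      linear_combination f * g * aq + f * e * bp + f * α * up + f * β * vp
        - (e * (Db - Dp) + α * γ + β * δ) * ab - (e * γ + (Du - Dp) * α) * au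
        - (e * δ + (Du - Dp) * β) * av - e * K4' + (Du - Dp) * F2 - h * Xar * G3 + h * Xar * G2
    have h1 := (mul_eq_zero.1 this).resolve_right hht
    have := (mul_eq_zero.1 h1).resolve_left he
    linarith
  subst G6
  -- f g Xbq = h (Dr - Dp) Xar
  have K4 : f * (h * Xpr) = (Dr - Db) * h * Xar + (α * δ + β * γ) * Xuv := by
    linear_combination h * ar - α * bu - β * bv
  have K1 : f * g * Xbq = h * (Dr - Dp) * Xar := by
    linear_combination (-f) * bp + (Db - Dp) * ab + γ * au + δ * av + K4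
  have K2 : f * g * Xuq = γ * h * Xar - (Du - Dp) * β * Xuv := by
    linear_combination (-f) * up + γ * ab + (Du - Dp) * au
  have K3 : f * g * Xvq = δ * h * Xar - (Du - Dp) * α * Xuv := by
    linear_combination (-f) * vp + δ * ab + (Du - Dp) * av
  have G7 : (Dr - Dp) * (Dr - Dq) = g ^ 2 := by
    have : ((Dr - Dp) * (Dr - Dq) - g ^ 2) * (e * (h * Xar)) = 0 := by
      linear_combination (-1) * (2 * α * f * g * uq - 2 * α * γ * K1 - 2 * α * (Du - Dq) * K2
        + 2 * α * g ^ 2 * au - (-(Du - Dq) * (Du - Dp) + g ^ 2) * F2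
        - h * Xar * ((Dr - Dp) + (Du - Dq)) * G3)
    have := (mul_eq_zero.1 this).resolve_right (mul_ne_zero he hht)
    linarith
  have G8 : (Dq - Dr) * (h ^ 2 - f ^ 2) = h ^ 2 * (Dr - Dp) := by
    have : ((Dq - Dr) * (h ^ 2 - f ^ 2) - h ^ 2 * (Dr - Dp)) * Xar = 0 := by
      linear_combination f * g * qr - (Dq - Dr) * f * pr + h * K1 - (Dq - Dr) * h * ab
        + f * Xpr * G7
    have := (mul_eq_zero.1 this).resolve_right ht
    linarith
  have G9 : h ^ 2 = f ^ 2 := by
    have : (h ^ 2 - f ^ 2) * (h * Xar) = 0 := by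
      linear_combination f * g * bq - (Db - Dq) * K1 - γ * K2 - δ * K3 - h * f * pr + g ^ 2 * ab
        - h ^ 2 * ab - (Dr - Dp) * K4 - h * Xar * G7 + α * F4 + β * F5 + h * Xar * G4
        + h * Xar * G5
    have := (mul_eq_zero.1 this).resolve_right hht
    linarith
  have G10 : Dr - Dp = 0 := by
    have : h ^ 2 * (Dr - Dp) = 0 := by rw [← G8, G9]; ring
    exact (mul_eq_zero.1 this).resolve_left (pow_ne_zero 2 hh)
  rw [G10, zero_mul] at G7
  exact pow_ne_zero 2 hg G7.symm

/-- if `X_ar` vanishes then everything vanishes -/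
theorem rest (he : e ≠ 0) (hα : α ≠ 0) (hβ : β ≠ 0) (hf : f ≠ 0)
    (hg : g ≠ 0) (hh : h ≠ 0) (ht : Xar = 0)
    (ab : f * Xbp = h * Xar)
    (au : β * Xuv + f * Xup = 0)
    (av : α * Xuv + f * Xvp = 0)
    (ap : e * Xbp + α * Xup + β * Xvp = g * Xaq)
    (ar : Da * Xar + α * Xur + β * Xvr + f * Xpr = Dr * Xar)
    (bu : δ * Xuv + h * Xur = 0)
    (bv : γ * Xuv + h * Xvr = 0)
    (bp : Db * Xbp + γ * Xup + δ * Xvp + h * Xpr = Dp * Xbp + g * Xbq)
    (up : γ * Xbp + Du * Xup = Dp * Xup + g * Xuq)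
    (vp : δ * Xbp + Dv * Xvp = Dp * Xvp + g * Xvq)
    (pq : f * Xaq = 0)
    (pr : f * Xar + Dp * Xpr + g * Xqr = h * Xbp + Dr * Xpr) :
    Xuv = 0 ∧ Xup = 0 ∧ Xuq = 0 ∧ Xur = 0 ∧ Xvp = 0 ∧ Xvq = 0 ∧ Xvr = 0 ∧ Xaq = 0 ∧ Xar = 0 ∧
      Xbp = 0 ∧ Xbq = 0 ∧ Xpr = 0 ∧ Xqr = 0 := by
  have haq : Xaq = 0 := (mul_eq_zero.1 pq).resolve_left hf
  subst haq
  subst ht
  have hbp : Xbp = 0 := by
    rw [mul_zero] at ab; exact (mul_eq_zero.1 ab).resolve_left hf
  subst hbp
  have huv : Xuv = 0 := by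
    have : α * β * Xuv = 0 := by linear_combination (-f / 2) * ap + α * au / 2 + β * av / 2
    exact (mul_eq_zero.1 this).resolve_left (mul_ne_zero hα hβ)
  subst huv
  have hup : Xup = 0 := by
    have : f * Xup = 0 := by linear_combination au
    exact (mul_eq_zero.1 this).resolve_left hf
  have hvp : Xvp = 0 := by
    have : f * Xvp = 0 := by linear_combination av
    exact (mul_eq_zero.1 this).resolve_left hf
  subst hup hvp
  have hur : Xur = 0 := by
    have : h * Xur = 0 := by linear_combination bu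
    exact (mul_eq_zero.1 this).resolve_left hh
  have hvr : Xvr = 0 := by
    have : h * Xvr = 0 := by linear_combination bv
    exact (mul_eq_zero.1 this).resolve_left hh
  subst hur hvr
  have hpr : Xpr = 0 := by
    have : f * Xpr = 0 := by linear_combination ar
    exact (mul_eq_zero.1 this).resolve_left hf
  subst hpr
  have huq : Xuq = 0 := by
    have : g * Xuq = 0 := by linear_combination -up
    exact (mul_eq_zero.1 this).resolve_left hg
  have hvq : Xvq = 0 := by
    have : g * Xvq = 0 := by linear_combination -vp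
    exact (mul_eq_zero.1 this).resolve_left hg
  have hbq : Xbq = 0 := by
    have : g * Xbq = 0 := by linear_combination -bp
    exact (mul_eq_zero.1 this).resolve_left hg
  have hqr : Xqr = 0 := by
    have : g * Xqr = 0 := by linear_combination pr
    exact (mul_eq_zero.1 this).resolve_left hg
  exact ⟨rfl, rfl, huq, rfl, rfl, hvq, rfl, rfl, rfl, rfl, hbq, rfl, hqr⟩

end Pool.Agent.R2.DiaCore
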