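import Mathlib

/-!
# Small spectral utilities
-/

set_option autoImplicit false

open Finset

namespace Pool.Agent.R2.Util

section

variable {V : Type*} [Fintype V] [DecidableEq V]

theorem mem_spectrum_iff (A : Matrix V V ℝ) (μ : ℝ) :
    μ ∈ spectrum ℝ A ↔ ∃ v : V → ℝ, v ≠ 0 ∧ A.mulVec v = μ • v := by
  rw [← Matrix.spectrum_toLin', ← Module.End.hasEigenvalue_iff_mem_spectrum]
  constructor
  · intro h
    obtain ⟨v, hv⟩ := h.exists_hasEigenvector
    refine ⟨v, hv.2, ?_⟩
    have := hv.apply_eq_smul
    rwa [Matrix.toLin'_apply] at this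
  · rintro ⟨v, hv, h⟩
    apply Module.End.hasEigenvalue_of_hasEigenvector (x := v)
    refine ⟨?_, hv⟩
    rw [Module.End.mem_eigenspace_iff, Matrix.toLin'_apply, h]

variable {A : Matrix V V ℝ} (hA : A.IsHermitian)

/-- the coordinates of the orthonormal eigenvectors -/
noncomputable def bv (i u : V) : ℝ := hA.eigenvectorBasis i u

theorem bv_orth (i j : V) : ∑ u, bv hA i u * bv hA j u = if i = j then 1 else 0 := by
  have h := (orthonormal_iff_ite.1 hA.eigenvectorBasis.orthonormal) i j
  rw [← h, PiLp.inner_apply]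
  refine Finset.sum_congr rfl fun u _ => ?_
  simp [bv, mul_comm]

theorem bv_compl (u v : V) : ∑ i, bv hA i u * bv hA i v = if u = v then 1 else 0 := by
  have h1 : (Matrix.of fun i u => bv hA i u) * (Matrix.of fun i u => bv hA i u).transpose = 1 := by
    ext i j
    rw [Matrix.mul_apply, Matrix.one_apply]
    simpa using bv_orth hA i j
  have h2 := mul_eq_one_comm.1 h1
  have h3 := congrFun (congrFun h2 u) v
  rw [Matrix.mul_apply, Matrix.one_apply] at h3
  simpa using h3

theorem mulVec_bv (i : V) : A.mulVec (bv hA i) = hA.eigenvalues i • bv hA i :=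
  hA.mulVec_eigenvectorBasis i

theorem entry_eq (u v : V) : A u v = ∑ i, hA.eigenvalues i * (bv hA i u * bv hA i v) := by
  have h1 : ∀ i, ∑ w, A u w * bv hA i w = hA.eigenvalues i * bv hA i u := by
    intro i
    have := congrFun (mulVec_bv hA i) u
    simpa [Matrix.mulVec, dotProduct] using this
  have h2 : ∑ i, hA.eigenvalues i * (bv hA i u * bv hA i v)
      = ∑ i, (∑ w, A u w * bv hA i w) * bv hA i v := by
    refine Finset.sum_congr rfl fun i _ => ?_
    rw [h1]; ring
  rw [h2]
  simp_rw [Finset.sum_mul]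
  rw [Finset.sum_comm]
  have h3 : ∀ w, ∑ i, A u w * bv hA i w * bv hA i v = A u w * (if w = v then 1 else 0) := by
    intro w
    rw [← bv_compl hA w v, Finset.mul_sum]
    refine Finset.sum_congr rfl fun i _ => ?_
    ring
  simp_rw [h3]
  simp

theorem sum_eigenvalues : ∑ i, hA.eigenvalues i = ∑ u, A u u := by
  have := hA.trace_eq_sum_eigenvalues
  rw [Matrix.trace] at this
  simpa using this.symm

theorem sum_sq_eigenvalues : ∑ i, hA.eigenvalues i ^ 2 = ∑ u, ∑ v, A u v ^ 2 := by
  have h1 : ∀ u v, A u v ^ 2 = A u v * ∑ i, hA.eigenvalues i * (bv hA i u * bv hA i v) := by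
    intro u v
    rw [← entry_eq hA u v]; ring
  simp_rw [h1, Finset.mul_sum]
  have h2 : ∑ u, ∑ v, ∑ i, A u v * (hA.eigenvalues i * (bv hA i u * bv hA i v))
      = ∑ i, ∑ u, hA.eigenvalues i * bv hA i u * ∑ v, A u v * bv hA i v := by
    calc ∑ u, ∑ v, ∑ i, A u v * (hA.eigenvalues i * (bv hA i u * bv hA i v))
        = ∑ u, ∑ i, ∑ v, A u v * (hA.eigenvalues i * (bv hA i u * bv hA i v)) := by
          refine Finset.sum_congr rfl fun u _ => Finset.sum_comm
      _ = ∑ i, ∑ u, ∑ v, A u v * (hA.eigenvalues i * (bv hA i u * bv hA i v)) :=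
          Finset.sum_comm
      _ = _ := by
          refine Finset.sum_congr rfl fun i _ => Finset.sum_congr rfl fun u _ => ?_
          rw [Finset.mul_sum]
          refine Finset.sum_congr rfl fun v _ => ?_
          ring
  rw [h2]
  refine Finset.sum_congr rfl fun i _ => ?_
  have h3 : ∀ u, ∑ v, A u v * bv hA i v = hA.eigenvalues i * bv hA i u := by
    intro u
    have := congrFun (mulVec_bv hA i) u
    simpa [Matrix.mulVec, dotProduct] using this
  simp_rw [h3]
  have h4 := bv_orth hA i i
  rw [if_pos rfl] at h4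
  calc hA.eigenvalues i ^ 2 = hA.eigenvalues i ^ 2 * 1 := by ring
    _ = hA.eigenvalues i ^ 2 * ∑ u, bv hA i u * bv hA i u := by rw [h4]
    _ = _ := by
      rw [Finset.mul_sum]
      refine Finset.sum_congr rfl fun u _ => ?_
      ring

/-- the multiplicity of an eigenvalue counts the indices -/
theorem finrank_eigenspace (μ : ℝ) :
    Module.finrank ℝ (Module.End.eigenspace (Matrix.toLin' A) μ)
      = (univ.filter fun i => hA.eigenvalues i = μ).card := by
  have hT := (Matrix.isSymmetric_toEuclideanLin_iff.mpr hA)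
  have h1 := hT.card_filter_eigenvalues_eq (finrank_euclideanSpace (ι := V)) μ
  have h2 : (univ.filter fun i => hA.eigenvalues i = μ).card
      = (univ.filter fun j => hA.eigenvalues₀ j = μ).card := by
    apply Finset.card_equiv (Fintype.equivOfCardEq (Fintype.card_fin (Fintype.card V))).symm
    intro i
    simp [Matrix.IsHermitian.eigenvalues]
  rw [h2]
  have h3 : (univ.filter fun j => hA.eigenvalues₀ j = μ).card
      = Module.finrank ℝ (Module.End.eigenspace (Matrix.toEuclideanLin A) μ) := h1
  rw [h3]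
  have h4 : (Module.End.eigenspace (Matrix.toEuclideanLin A) μ).map
      (WithLp.linearEquiv 2 ℝ (V → ℝ)).toLinearMap
      = Module.End.eigenspace (Matrix.toLin' A) μ := by
    ext v
    simp only [Submodule.mem_map, Module.End.mem_eigenspace_iff]
    constructor
    · rintro ⟨x, hx, rfl⟩
      have := congrArg (WithLp.linearEquiv 2 ℝ (V → ℝ)) hx
      simpa [Matrix.toLpLin_apply, Matrix.toLin'_apply] using this
    · intro hv
      refine ⟨(WithLp.linearEquiv 2 ℝ (V → ℝ)).symm v, ?_, by simp⟩
      apply (WithLp.linearEquiv 2 ℝ (V → ℝ)).injective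
      simpa [Matrix.toLpLin_apply, Matrix.toLin'_apply] using hv
  rw [← h4]
  exact (LinearEquiv.finrank_map_eq _ _)

theorem count_roots (μ : ℝ) :
    A.charpoly.rootMultiplicity μ = (univ.filter fun i => hA.eigenvalues i = μ).card := by
  rw [← Polynomial.count_roots, hA.roots_charpoly_eq_eigenvalues, Multiset.count_map]
  rw [Finset.card_def, Finset.filter_val]
  congr 1
  apply Multiset.filter_congr
  intro i _
  simp [eq_comm]

end

end Pool.Agent.R2.Util
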