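import Mathlib
import Pool.Agent.R2.Util

/-!
# The key inequality

Let `A` be a symmetric `0/1` matrix with zero diagonal, `I` a set of indices of eigenvalues, `E` the
part of `A` on the eigenvectors with index in `I` and `K = A - E`, of rank at most `r = |Iᶜ|`. The
matrix with entries `K_uv ^ 2 - K_uv = E_uv ^ 2 + (1 - 2 A_uv) E_uv` has rank at most `r ^ 2 + r`,
trace at least `tr E` and small Frobenius norm.
-/

set_option autoImplicit false

open Finset Pool.Agent.R2.Util

namespace Pool.Agent.R2.MultKey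

variable {V : Type*} [Fintype V] [DecidableEq V] {A : Matrix V V ℝ} (hA : A.IsHermitian)

/-- the part of `A` on the eigenvectors indexed by `I` -/
noncomputable def part (I : Finset V) (u v : V) : ℝ :=
  ∑ i ∈ I, hA.eigenvalues i * (bv hA i u * bv hA i v)

theorem part_symm (I : Finset V) (u v : V) : part hA I u v = part hA I v u := by
  unfold part
  refine Finset.sum_congr rfl fun i _ => ?_
  ring

theorem part_add (I : Finset V) (u v : V) : part hA I u v + part hA Iᶜ u v = A u v := by
  rw [entry_eq hA u v]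
  exact Finset.sum_add_sum_compl I _

theorem part_abs (I : Finset V) (L : ℝ) (hL0 : 0 ≤ L) (hL : ∀ i ∈ I, |hA.eigenvalues i| ≤ L)
    (u v : V) : |part hA I u v| ≤ L := by
  have hu := bv_compl hA u u
  have hv := bv_compl hA v v
  rw [if_pos rfl] at hu hv
  calc |part hA I u v| ≤ ∑ i ∈ I, |hA.eigenvalues i * (bv hA i u * bv hA i v)| :=
        Finset.abs_sum_le_sum_abs _ _
    _ ≤ ∑ i ∈ I, L * ((bv hA i u * bv hA i u + bv hA i v * bv hA i v) / 2) := by
        refine Finset.sum_le_sum fun i hi => ?_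
        rw [abs_mul]
        apply mul_le_mul (hL i hi) _ (abs_nonneg _) hL0
        rw [abs_le]
        constructor <;> nlinarith [sq_nonneg (bv hA i u + bv hA i v),
          sq_nonneg (bv hA i u - bv hA i v)]
    _ ≤ ∑ i, L * ((bv hA i u * bv hA i u + bv hA i v * bv hA i v) / 2) := by
        apply Finset.sum_le_sum_of_subset_of_nonneg (Finset.subset_univ I)
        intro i _ _
        apply mul_nonneg hL0
        nlinarith [mul_self_nonneg (bv hA i u), mul_self_nonneg (bv hA i v)]
    _ = L := by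
        rw [← Finset.mul_sum, ← Finset.sum_div, Finset.sum_add_distrib, hu, hv]
        ring

theorem part_frob (I : Finset V) :
    ∑ u, ∑ v, part hA I u v ^ 2 = ∑ i ∈ I, hA.eigenvalues i ^ 2 := by
  have h1 : ∀ u v, part hA I u v ^ 2 = ∑ i ∈ I, ∑ j ∈ I,
      hA.eigenvalues i * hA.eigenvalues j * ((bv hA i u * bv hA j u) * (bv hA i v * bv hA j v)) := by
    intro u v
    unfold part
    rw [sq, Finset.sum_mul_sum]
    refine Finset.sum_congr rfl fun i _ => Finset.sum_congr rfl fun j _ => ?_
    ring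
  simp_rw [h1]
  calc ∑ u, ∑ v, ∑ i ∈ I, ∑ j ∈ I, hA.eigenvalues i * hA.eigenvalues j *
        ((bv hA i u * bv hA j u) * (bv hA i v * bv hA j v))
      = ∑ i ∈ I, ∑ j ∈ I, ∑ u, ∑ v, hA.eigenvalues i * hA.eigenvalues j *
        ((bv hA i u * bv hA j u) * (bv hA i v * bv hA j v)) := by
        have e1 : ∀ u, ∑ v, ∑ i ∈ I, ∑ j ∈ I, hA.eigenvalues i * hA.eigenvalues j *
            ((bv hA i u * bv hA j u) * (bv hA i v * bv hA j v))
            = ∑ i ∈ I, ∑ j ∈ I, ∑ v, hA.eigenvalues i * hA.eigenvalues j *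
            ((bv hA i u * bv hA j u) * (bv hA i v * bv hA j v)) := by
          intro u
          rw [Finset.sum_comm]
          refine Finset.sum_congr rfl fun i _ => ?_
          rw [Finset.sum_comm]
        simp_rw [e1]
        rw [Finset.sum_comm]
        refine Finset.sum_congr rfl fun i _ => ?_
        rw [Finset.sum_comm]
    _ = ∑ i ∈ I, ∑ j ∈ I, hA.eigenvalues i * hA.eigenvalues j *
        ((if i = j then 1 else 0) * (if i = j then 1 else 0)) := by
        refine Finset.sum_congr rfl fun i _ => Finset.sum_congr rfl fun j _ => ?_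
        rw [← bv_orth hA i j]
        simp_rw [← Finset.mul_sum, ← Finset.sum_mul]
    _ = ∑ i ∈ I, hA.eigenvalues i ^ 2 := by
        refine Finset.sum_congr rfl fun i hi => ?_
        have : ∀ j ∈ I, hA.eigenvalues i * hA.eigenvalues j *
            ((if i = j then (1 : ℝ) else 0) * (if i = j then 1 else 0))
            = if i = j then hA.eigenvalues i ^ 2 else 0 := by
          intro j _
          by_cases h : i = j
          · subst h; simp; ring
          · simp [h]
        rw [Finset.sum_congr rfl this, Finset.sum_ite_eq, if_pos hi]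

theorem part_trace (I : Finset V) : ∑ u, part hA I u u = ∑ i ∈ I, hA.eigenvalues i := by
  unfold part
  rw [Finset.sum_comm]
  refine Finset.sum_congr rfl fun i _ => ?_
  rw [← Finset.mul_sum, bv_orth hA i i, if_pos rfl, mul_one]

/-- trace, rank and Frobenius norm of a symmetric matrix -/
theorem trace_sq_le (M : Matrix V V ℝ) (hM : M.IsHermitian) :
    (∑ u, M u u) ^ 2 ≤ (M.rank : ℝ) * ∑ u, ∑ v, M u v ^ 2 := by
  rw [← sum_eigenvalues hM, ← sum_sq_eigenvalues hM, hM.rank_eq_card_non_zero_eigs,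
    Fintype.card_subtype]
  have h1 : ∑ i, hM.eigenvalues i = ∑ i ∈ univ.filter (fun i => hM.eigenvalues i ≠ 0),
      hM.eigenvalues i := (Finset.sum_filter_ne_zero _).symm
  rw [h1]
  refine (sq_sum_le_card_mul_sum_sq).trans ?_
  apply mul_le_mul_of_nonneg_left _ (Nat.cast_nonneg _)
  exact Finset.sum_le_sum_of_subset_of_nonneg (Finset.subset_univ _) (fun i _ _ => sq_nonneg _)

/-- the entrywise polynomial of the low rank part -/
noncomputable def had (I : Finset V) : Matrix V V ℝ :=
  Matrix.of fun u v => part hA Iᶜ u v ^ 2 - part hA Iᶜ u v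

theorem had_herm (I : Finset V) : (had hA I).IsHermitian := by
  ext u v
  simp only [had, Matrix.conjTranspose_apply, Matrix.of_apply, star_trivial]
  rw [part_symm hA Iᶜ v u]

theorem had_rank (I : Finset V) : (had hA I).rank ≤ Iᶜ.card ^ 2 + Iᶜ.card := by
  have h : had hA I = (Matrix.of fun (u : V) (t : ((Iᶜ : Finset V) × (Iᶜ : Finset V)) ⊕
        (Iᶜ : Finset V)) => Sum.elim
          (fun p : (Iᶜ : Finset V) × (Iᶜ : Finset V) =>
            hA.eigenvalues p.1 * hA.eigenvalues p.2 * (bv hA p.1 u * bv hA p.2 u))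
          (fun i : (Iᶜ : Finset V) => -(hA.eigenvalues i * bv hA i u)) t) *
      (Matrix.of fun (t : ((Iᶜ : Finset V) × (Iᶜ : Finset V)) ⊕ (Iᶜ : Finset V)) (v : V) =>
        Sum.elim (fun p : (Iᶜ : Finset V) × (Iᶜ : Finset V) => bv hA p.1 v * bv hA p.2 v)
          (fun i : (Iᶜ : Finset V) => bv hA i v) t) := by
    ext u v
    rw [Matrix.mul_apply, Fintype.sum_sum_type, Fintype.sum_prod_type]
    simp only [Matrix.of_apply, Sum.elim_inl, Sum.elim_inr, had]
    rw [sub_eq_add_neg]
    congr 1
    · unfold part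
      rw [sq, Finset.sum_mul_sum, ← Finset.sum_coe_sort]
      refine Finset.sum_congr rfl fun i _ => ?_
      rw [← Finset.sum_coe_sort]
      refine Finset.sum_congr rfl fun j _ => ?_
      ring
    · unfold part
      rw [← Finset.sum_neg_distrib, ← Finset.sum_coe_sort]
      refine Finset.sum_congr rfl fun i _ => ?_
      ring
  rw [h]
  refine (Matrix.rank_mul_le_left _ _).trans ((Matrix.rank_le_card_width _).trans ?_)
  rw [Fintype.card_sum, Fintype.card_prod, Fintype.card_coe]
  apply le_of_eq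
  ring

theorem key (h01 : ∀ u v, A u v = 0 ∨ A u v = 1) (hdiag : ∀ u, A u u = 0) (I : Finset V)
    (L : ℝ) (hL0 : 0 ≤ L) (hL : ∀ i ∈ I, |hA.eigenvalues i| ≤ L)
    (hT : 0 ≤ ∑ i ∈ I, hA.eigenvalues i) :
    (∑ i ∈ I, hA.eigenvalues i) ^ 2
      ≤ ((Iᶜ.card : ℝ) ^ 2 + Iᶜ.card) * ((1 + L) ^ 2 * (I.card * L ^ 2)) := by
  have hM := trace_sq_le (had hA I) (had_herm hA I)
  have hent : ∀ u v, had hA I u v
      = part hA I u v ^ 2 + (1 - 2 * A u v) * part hA I u v := by
    intro u v
    have h := part_add hA I u v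
    have h2 : part hA Iᶜ u v = A u v - part hA I u v := by linarith
    simp only [had, Matrix.of_apply]
    rw [h2]
    have h3 : A u v ^ 2 = A u v := by
      rcases h01 u v with h | h <;> rw [h] <;> norm_num
    nlinarith
  have htr : ∑ i ∈ I, hA.eigenvalues i ≤ ∑ u, had hA I u u := by
    rw [← part_trace hA I]
    refine Finset.sum_le_sum fun u _ => ?_
    rw [hent u u, hdiag u]
    nlinarith [sq_nonneg (part hA I u u)]
  have hfr : ∑ u, ∑ v, had hA I u v ^ 2 ≤ (1 + L) ^ 2 * (I.card * L ^ 2) := by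
    have h1 : ∀ u v, had hA I u v ^ 2 ≤ (1 + L) ^ 2 * part hA I u v ^ 2 := by
      intro u v
      rw [hent u v]
      have h2 := part_abs hA I L hL0 hL u v
      have h3 : part hA I u v ^ 2 + (1 - 2 * A u v) * part hA I u v
          = (part hA I u v + (1 - 2 * A u v)) * part hA I u v := by ring
      rw [h3, mul_pow]
      apply mul_le_mul_of_nonneg_right _ (sq_nonneg _)
      apply sq_le_sq'
      · rcases h01 u v with h | h <;> rw [h] <;> linarith [(abs_le.1 h2).1]
      · rcases h01 u v with h | h <;> rw [h] <;> linarith [(abs_le.1 h2).2]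
    calc ∑ u, ∑ v, had hA I u v ^ 2 ≤ ∑ u, ∑ v, (1 + L) ^ 2 * part hA I u v ^ 2 :=
          Finset.sum_le_sum fun u _ => Finset.sum_le_sum fun v _ => h1 u v
      _ = (1 + L) ^ 2 * ∑ i ∈ I, hA.eigenvalues i ^ 2 := by
          rw [← part_frob hA I]
          simp_rw [Finset.mul_sum]
      _ ≤ (1 + L) ^ 2 * (I.card * L ^ 2) := by
          apply mul_le_mul_of_nonneg_left _ (sq_nonneg _)
          calc ∑ i ∈ I, hA.eigenvalues i ^ 2 ≤ ∑ _i ∈ I, L ^ 2 := by
                refine Finset.sum_le_sum fun i hi => ?_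
                rw [← sq_abs]
                exact pow_le_pow_left₀ (abs_nonneg _) (hL i hi) 2
            _ = I.card * L ^ 2 := by rw [Finset.sum_const, nsmul_eq_mul]
  have hrk : ((had hA I).rank : ℝ) ≤ (Iᶜ.card : ℝ) ^ 2 + Iᶜ.card := by
    exact_mod_cast had_rank hA I
  calc (∑ i ∈ I, hA.eigenvalues i) ^ 2 ≤ (∑ u, had hA I u u) ^ 2 :=
        pow_le_pow_left₀ hT htr 2
    _ ≤ _ := hM
    _ ≤ ((Iᶜ.card : ℝ) ^ 2 + Iᶜ.card) * ∑ u, ∑ v, had hA I u v ^ 2 := by
        apply mul_le_mul_of_nonneg_right hrk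
        exact Finset.sum_nonneg fun u _ => Finset.sum_nonneg fun v _ => sq_nonneg _
    _ ≤ _ := by
        apply mul_le_mul_of_nonneg_left hfr
        positivity

end Pool.Agent.R2.MultKey
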