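import Mathlib

/-! Core algebra for the counterexample to nesting of multiplicity bipartitions (MP_808179). -/

namespace R2.NestCore

theorem sum10 (f : Fin 10 → ℝ) :
    ∑ k, f k = f 0 + f 1 + f 2 + f 3 + f 4 + f 5 + f 6 + f 7 + f 8 + f 9 := by
  rw [Fin.sum_univ_castSucc, Fin.sum_univ_castSucc, Fin.sum_univ_eight]
  rfl

/-- If the entries of a real symmetric matrix `Q` with the zero pattern of the graph satisfy
`Q² = 1`, then `(tr Q)² = 4`. -/
theorem core (d0 d1 d2 d3 d4 d5 d6 d7 d8 d9 : ℝ)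
    (q01 q02 q04 q06 q08 q13 q14 q16 q19 q23 q27 q28 q37 q39 q47 q68 q69 q78 q79 : ℝ)
    (n01 : q01 ≠ 0) (n02 : q02 ≠ 0) (n04 : q04 ≠ 0) (n08 : q08 ≠ 0)
    (n13 : q13 ≠ 0) (n14 : q14 ≠ 0) (n19 : q19 ≠ 0) (n23 : q23 ≠ 0)
    (n47 : q47 ≠ 0) (n69 : q69 ≠ 0) (n68 : q68 ≠ 0) (n78 : q78 ≠ 0) (n79 : q79 ≠ 0)
    (h03 : q01 * q13 + q02 * q23 = 0) (h12 : q01 * q02 + q13 * q23 = 0)
    (h07 : q02 * q27 + q04 * q47 + q08 * q78 = 0)
    (h17 : q13 * q37 + q14 * q47 + q19 * q79 = 0)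
    (h24 : q02 * q04 + q27 * q47 = 0) (h34 : q13 * q14 + q37 * q47 = 0)
    (h48 : q04 * q08 + q47 * q78 = 0) (h49 : q14 * q19 + q47 * q79 = 0)
    (h46 : q04 * q06 + q14 * q16 = 0)
    (h18 : q01 * q08 + q16 * q68 = 0)
    (h67 : q68 * q78 + q69 * q79 = 0) (h89 : q68 * q69 + q78 * q79 = 0)
    (h29 : q23 * q39 + q27 * q79 = 0) (h38 : q23 * q28 + q37 * q78 = 0)
    (e47 : d4 + d7 = 0) (e56 : d5 + d6 = 0)
    (e02 : q02 * (d0 + d2) + q08 * q28 = 0)
    (e13 : q13 * (d1 + d3) + q19 * q39 = 0)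
    (e78 : q78 * (d7 + d8) + q27 * q28 = 0)
    (e79 : q79 * (d7 + d9) + q37 * q39 = 0)
    (e04 : q04 * (d0 + d4) + q01 * q14 = 0)
    (e14 : q14 * (d1 + d4) + q01 * q04 = 0)
    (e01 : q01 * (d0 + d1) + q04 * q14 + q06 * q16 = 0)
    (e44 : d4 ^ 2 + q04 ^ 2 + q14 ^ 2 + q47 ^ 2 = 1) :
    (d0 + d1 + d2 + d3 + d4 + d5 + d6 + d7 + d8 + d9) ^ 2 = 4 := by
  -- q02² = q13²
  have s1 : q02 ^ 2 = q13 ^ 2 := by
    have h : (q01 * q23) * (q13 ^ 2 - q02 ^ 2) = 0 := by
      linear_combination q13 * q23 * h03 - q02 * q23 * h12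
    have := (mul_eq_zero.1 h).resolve_left (mul_ne_zero n01 n23)
    linarith
  have s2 : q47 ^ 2 = q02 ^ 2 + q08 ^ 2 := by
    have h : q04 * (q47 ^ 2 - q02 ^ 2 - q08 ^ 2) = 0 := by
      linear_combination q47 * h07 - q02 * h24 - q08 * h48
    have := (mul_eq_zero.1 h).resolve_left n04
    linarith
  have s3 : q47 ^ 2 = q13 ^ 2 + q19 ^ 2 := by
    have h : q14 * (q47 ^ 2 - q13 ^ 2 - q19 ^ 2) = 0 := by
      linear_combination q47 * h17 - q13 * h34 - q19 * h49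
    have := (mul_eq_zero.1 h).resolve_left n14
    linarith
  have s4 : q08 ^ 2 = q19 ^ 2 := by linarith
  have s5 : q68 ^ 2 = q79 ^ 2 := by
    have h : (q69 * q78) * (q68 ^ 2 - q79 ^ 2) = 0 := by
      linear_combination q68 * q69 * h67 - q69 * q79 * h89
    have := (mul_eq_zero.1 h).resolve_left (mul_ne_zero n69 n78)
    linarith
  have s6 : q14 ^ 2 * q16 ^ 2 = q01 ^ 2 * q47 ^ 2 := by
    have h1 : q16 ^ 2 * q68 ^ 2 = q01 ^ 2 * q08 ^ 2 := by
      have : q16 * q68 = -(q01 * q08) := by linarith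
      calc q16 ^ 2 * q68 ^ 2 = (q16 * q68) ^ 2 := by ring
        _ = q01 ^ 2 * q08 ^ 2 := by rw [this]; ring
    have h2 : q47 ^ 2 * q79 ^ 2 = q14 ^ 2 * q19 ^ 2 := by
      have : q47 * q79 = -(q14 * q19) := by linarith
      calc q47 ^ 2 * q79 ^ 2 = (q47 * q79) ^ 2 := by ring
        _ = q14 ^ 2 * q19 ^ 2 := by rw [this]; ring
    have h : q68 ^ 2 * (q14 ^ 2 * q16 ^ 2 - q01 ^ 2 * q47 ^ 2) = 0 := by
      linear_combination q14 ^ 2 * h1 - q01 ^ 2 * h2 + q01 ^ 2 * q14 ^ 2 * s4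
        - q01 ^ 2 * q47 ^ 2 * s5
    have := (mul_eq_zero.1 h).resolve_left (pow_ne_zero 2 n68)
    linarith
  -- the key ratio
  obtain ⟨X, hX⟩ : ∃ X : ℝ, q01 * X = q04 * q14 := ⟨q04 * q14 / q01, by field_simp⟩
  have nX : X ≠ 0 := by
    rintro rfl
    rw [mul_zero] at hX
    exact mul_ne_zero n04 n14 hX.symm
  have s7 : q06 * q16 * X = -(q01 * q47 ^ 2) := by
    have h : q01 * (q06 * q16 * X + q01 * q47 ^ 2) = 0 := by
      linear_combination q06 * q16 * hX + q14 * q16 * h46 - s6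
    have := (mul_eq_zero.1 h).resolve_left n01
    linarith
  have s8 : X * (d0 + d1) + X ^ 2 - q47 ^ 2 = 0 := by
    have h : q01 * (X * (d0 + d1) + X ^ 2 - q47 ^ 2) = 0 := by
      linear_combination X * e01 + X * hX - s7
    exact (mul_eq_zero.1 h).resolve_left n01
  have s9 : X * (d0 + d4) = -q14 ^ 2 := by
    have h : q01 * (X * (d0 + d4) + q14 ^ 2) = 0 := by
      linear_combination (d0 + d4) * hX + q14 * e04
    have := (mul_eq_zero.1 h).resolve_left n01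
    linarith
  have s10 : X * (d1 + d4) = -q04 ^ 2 := by
    have h : q01 * (X * (d1 + d4) + q04 ^ 2) = 0 := by
      linear_combination (d1 + d4) * hX + q04 * e14
    have := (mul_eq_zero.1 h).resolve_left n01
    linarith
  have s11 : (X - d4) ^ 2 = 1 := by
    linear_combination s8 - s9 - s10 + e44
  have r28 : q28 * q47 ^ 2 = X * q02 * q08 := by
    have h : q23 * (q28 * q47 ^ 2 - X * q02 * q08) = 0 := by
      linear_combination q47 ^ 2 * h38 - q78 * q47 * h34 + q13 * q14 * h48 + q13 * q08 * hX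
        - X * q08 * h03
    have := (mul_eq_zero.1 h).resolve_left n23
    linarith
  have r39 : q39 * q47 ^ 2 = X * q13 * q19 := by
    have h : q23 * (q39 * q47 ^ 2 - X * q13 * q19) = 0 := by
      linear_combination q47 ^ 2 * h29 - q79 * q47 * h24 + q02 * q04 * h49 + q02 * q19 * hX
        - X * q19 * h12
    have := (mul_eq_zero.1 h).resolve_left n23
    linarith
  have f8 : q08 * (d8 - d4) + q02 * q28 = 0 := by
    have h : q04 * (q08 * (d8 - d4) + q02 * q28) = 0 := by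
      linear_combination (-q47) * e78 + (d8 - d4) * h48 + q28 * h24 + q47 * q78 * e47
    exact (mul_eq_zero.1 h).resolve_left n04
  have f9 : q19 * (d9 - d4) + q13 * q39 = 0 := by
    have h : q14 * (q19 * (d9 - d4) + q13 * q39) = 0 := by
      linear_combination (-q47) * e79 + (d9 - d4) * h49 + q39 * h34 + q47 * q79 * e47
    exact (mul_eq_zero.1 h).resolve_left n14
  have t1 : (d0 + d2) + (d8 - d4) = -X := by
    have h : (q02 * q08) * ((d0 + d2) + (d8 - d4) + X) = 0 := by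
      linear_combination q08 * e02 + q02 * f8 - r28 + q28 * s2
    have := (mul_eq_zero.1 h).resolve_left (mul_ne_zero n02 n08)
    linarith
  have t2 : (d1 + d3) + (d9 - d4) = -X := by
    have h : (q13 * q19) * ((d1 + d3) + (d9 - d4) + X) = 0 := by
      linear_combination q19 * e13 + q13 * f9 - r39 + q39 * s3
    have := (mul_eq_zero.1 h).resolve_left (mul_ne_zero n13 n19)
    linarith
  have t3 : d0 + d1 + d2 + d3 + d4 + d5 + d6 + d7 + d8 + d9 = -2 * (X - d4) := by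
    linear_combination t1 + t2 + e47 + e56
  rw [t3]
  linear_combination 4 * s11

end R2.NestCore
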