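import Mathlib
import Pool.Agent.R2.Util
import Pool.Agent.R2.NestCore

/-!
# A graph on 10 vertices whose two-eigenvalue matrices all have multiplicities 6 and 4
-/

set_option autoImplicit false
set_option linter.unusedSimpArgs false
set_option linter.unusedVariables false

open Finset

namespace Pool.Agent.R2.Nest

/-- 625 times a symmetric involution with the pattern of the graph -/
def M : Matrix (Fin 10) (Fin 10) ℤ :=
  !![-256, 192, 225, 0, 300, 0, -240, 0, 300, 0;
    192, -144, 0, 225, 400, 0, 180, 0, 0, 300;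
    225, 0, -144, -192, 0, 400, 0, -180, 300, 0;
    0, 225, -192, -256, 0, -300, 0, -240, 0, 300;
    300, 400, 0, 0, 0, 0, 0, 375, 0, 0;
    0, 0, 400, -300, 0, 0, 375, 0, 0, 0;
    -240, 180, 0, 0, 0, 375, 0, 0, -320, 240;
    0, 0, -180, -240, 375, 0, 0, 0, -240, -320;
    300, 0, 300, 0, 0, 0, -320, -240, -225, 0;
    0, 300, 0, 300, 0, 0, 240, -320, 0, -225]

theorem M_symm : ∀ i j, M i j = M j i := by decide +kernel

theorem M_sq : ∀ i j, ∑ k, M i k * M k j = if i = j then 390625 else 0 := by decide +kernel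

theorem M_tr : ∑ i, M i i = -1250 := by decide +kernel

/-- the graph -/
def G : SimpleGraph (Fin 10) where
  Adj i j := i ≠ j ∧ M i j ≠ 0
  symm := ⟨fun i j h => ⟨h.1.symm, by rw [M_symm]; exact h.2⟩⟩
  loopless := ⟨fun _ h => h.1 rfl⟩

/-- A Hermitian matrix all of whose eigenvalues are `a` or `b` satisfies `(A - a)(A - b) = 0`. -/
theorem quad {n : ℕ} (A : Matrix (Fin n) (Fin n) ℝ) (hA : A.IsHermitian) (a b : ℝ)
    (h : ∀ i, hA.eigenvalues i = a ∨ hA.eigenvalues i = b) :
    A * A = (a + b) • A - (a * b) • (1 : Matrix (Fin n) (Fin n) ℝ) := by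
  have h1 : ∀ i, (A * A - ((a + b) • A - (a * b) • (1 : Matrix (Fin n) (Fin n) ℝ))).mulVec
      (Util.bv hA i) = 0 := by
    intro i
    have e := Util.mulVec_bv hA i
    rw [Matrix.sub_mulVec, Matrix.sub_mulVec, ← Matrix.mulVec_mulVec, e, Matrix.mulVec_smul, e,
      Matrix.smul_mulVec, Matrix.smul_mulVec, e, Matrix.one_mulVec]
    have : (hA.eigenvalues i - a) * (hA.eigenvalues i - b) = 0 := by
      rcases h i with h | h <;> rw [h] <;> ring
    funext u
    simp only [Pi.sub_apply, Pi.smul_apply, smul_eq_mul, Pi.zero_apply]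
    linear_combination this * Util.bv hA i u
  set B := A * A - ((a + b) • A - (a * b) • (1 : Matrix (Fin n) (Fin n) ℝ)) with hB
  have h2 : B = 0 := by
    ext u v
    have : B u v = ∑ w, B u w * ∑ i, Util.bv hA i w * Util.bv hA i v := by
      simp_rw [Util.bv_compl hA]
      simp
    rw [this]
    simp_rw [Finset.mul_sum]
    rw [Finset.sum_comm]
    refine Finset.sum_eq_zero fun i _ => ?_
    have h3 := congrFun (h1 i) u
    simp only [Matrix.mulVec, dotProduct, Pi.zero_apply] at h3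
    have h4 : ∑ w, B u w * (Util.bv hA i w * Util.bv hA i v)
        = (∑ w, B u w * Util.bv hA i w) * Util.bv hA i v := by
      rw [Finset.sum_mul]
      exact Finset.sum_congr rfl fun w _ => by ring
    rw [h4, h3, zero_mul]
  exact sub_eq_zero.1 h2

/-- Eigenvalues of a symmetric involution. -/
theorem eig_pm {n : ℕ} (A : Matrix (Fin n) (Fin n) ℝ) (hA : A.IsHermitian) (h : A * A = 1)
    (i : Fin n) : hA.eigenvalues i = 1 ∨ hA.eigenvalues i = -1 := by
  have e := Util.mulVec_bv hA i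
  have h1 : (A * A).mulVec (Util.bv hA i) = (hA.eigenvalues i * hA.eigenvalues i) •
      Util.bv hA i := by
    rw [← Matrix.mulVec_mulVec, e, Matrix.mulVec_smul, e, smul_smul]
  rw [h, Matrix.one_mulVec] at h1
  have h2 := Util.bv_orth hA i i
  rw [if_pos rfl] at h2
  have h3 : ∑ u, Util.bv hA i u * Util.bv hA i u
      = hA.eigenvalues i * hA.eigenvalues i * ∑ u, Util.bv hA i u * Util.bv hA i u := by
    rw [Finset.mul_sum]
    refine Finset.sum_congr rfl fun u _ => ?_
    have := congrFun h1 u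
    simp only [Pi.smul_apply, smul_eq_mul] at this
    nth_rewrite 1 [this]
    ring
  rw [h2, mul_one] at h3
  exact mul_self_eq_one_iff.1 h3.symm

theorem roots_map {n : ℕ} (A : Matrix (Fin n) (Fin n) ℝ) (hA : A.IsHermitian) :
    A.charpoly.roots = (univ : Finset (Fin n)).val.map hA.eigenvalues := by
  rw [hA.roots_charpoly_eq_eigenvalues]
  apply Multiset.map_congr rfl
  intro i _
  simp

theorem eig_of_roots {n k : ℕ} (A : Matrix (Fin n) (Fin n) ℝ) (hA : A.IsHermitian) (a b : ℝ)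
    (h : A.charpoly.roots = Multiset.replicate (n - k) a + Multiset.replicate k b) :
    (∀ i, hA.eigenvalues i = a ∨ hA.eigenvalues i = b) ∧
      ∑ i, A i i = ((n - k : ℕ) : ℝ) * a + (k : ℝ) * b := by
  rw [roots_map A hA] at h
  constructor
  · intro i
    have hi : hA.eigenvalues i ∈ (univ : Finset (Fin n)).val.map hA.eigenvalues :=
      Multiset.mem_map_of_mem _ (Finset.mem_univ i)
    rw [h, Multiset.mem_add] at hi
    rcases hi with hi | hi
    · exact Or.inl (Multiset.eq_of_mem_replicate hi)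
    · exact Or.inr (Multiset.eq_of_mem_replicate hi)
  · have h2 : ((univ : Finset (Fin n)).val.map hA.eigenvalues).sum = ∑ i, hA.eigenvalues i := rfl
    rw [h, Multiset.sum_add, Multiset.sum_replicate, Multiset.sum_replicate] at h2
    rw [← Util.sum_eigenvalues hA, ← h2]
    simp

theorem roots_of_pm {n k : ℕ} (hk : k ≤ n) (A : Matrix (Fin n) (Fin n) ℝ) (hA : A.IsHermitian)
    (h : A * A = 1) (ht : ∑ i, A i i = (k : ℝ) - ((n - k : ℕ) : ℝ)) :
    A.charpoly.roots = Multiset.replicate (n - k) (-1) + Multiset.replicate k 1 := by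
  have hpm := eig_pm A hA h
  set P : Finset (Fin n) := univ.filter fun i => hA.eigenvalues i = 1 with hP
  set N : Finset (Fin n) := univ.filter fun i => ¬ hA.eigenvalues i = 1 with hN
  have hcard : P.card + N.card = n := by
    have := Finset.card_filter_add_card_filter_not (s := (univ : Finset (Fin n)))
      (fun i => hA.eigenvalues i = 1)
    simpa using this
  have hsum : ∑ i, hA.eigenvalues i = (P.card : ℝ) - (N.card : ℝ) := by
    rw [← Finset.sum_filter_add_sum_filter_not univ (fun i => hA.eigenvalues i = 1)]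
    have h1 : ∑ i ∈ univ.filter (fun i => hA.eigenvalues i = 1), hA.eigenvalues i
        = (P.card : ℝ) := by
      rw [Finset.sum_congr rfl (fun i hi => (Finset.mem_filter.1 hi).2)]
      simp [hP]
    have h2 : ∑ i ∈ univ.filter (fun i => ¬ hA.eigenvalues i = 1), hA.eigenvalues i
        = -(N.card : ℝ) := by
      rw [Finset.sum_congr rfl
        (fun i hi => (hpm i).resolve_left (Finset.mem_filter.1 hi).2)]
      simp [hN]
    rw [h1, h2]
    ring
  rw [Util.sum_eigenvalues hA, ht] at hsum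
  have hPk : P.card = k := by
    have e1 : (P.card : ℝ) + N.card = n := by exact_mod_cast hcard
    have e2 : ((n - k : ℕ) : ℝ) = (n : ℝ) - k := Nat.cast_sub hk
    rw [e2] at hsum
    have : (P.card : ℝ) = k := by linarith
    exact_mod_cast this
  have hNk : N.card = n - k := by omega
  rw [roots_map A hA]
  have e1 : (univ : Finset (Fin n)).val.map hA.eigenvalues
      = (univ.filter fun i => ¬ hA.eigenvalues i = 1).val.map hA.eigenvalues
        + (univ.filter fun i => hA.eigenvalues i = 1).val.map hA.eigenvalues := by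
    rw [← Multiset.map_add, Finset.filter_val, Finset.filter_val, add_comm,
      Multiset.filter_add_not]
  rw [e1]
  have e2 : (univ.filter fun i => ¬ hA.eigenvalues i = 1).val.map hA.eigenvalues
      = Multiset.replicate (n - k) (-1) := by
    rw [Multiset.eq_replicate]
    refine ⟨by rw [Multiset.card_map]; exact hNk, ?_⟩
    intro x hx
    obtain ⟨i, hi, rfl⟩ := Multiset.mem_map.1 hx
    exact (hpm i).resolve_left (Finset.mem_filter.1 (Finset.mem_def.2 hi)).2
  have e3 : (univ.filter fun i => hA.eigenvalues i = 1).val.map hA.eigenvalues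
      = Multiset.replicate k 1 := by
    rw [Multiset.eq_replicate]
    refine ⟨by rw [Multiset.card_map]; exact hPk, ?_⟩
    intro x hx
    obtain ⟨i, hi, rfl⟩ := Multiset.mem_map.1 hx
    exact (Finset.mem_filter.1 (Finset.mem_def.2 hi)).2
  rw [e2, e3]

/-- The real involution. -/
noncomputable def Q0 : Matrix (Fin 10) (Fin 10) ℝ := fun i j => (M i j : ℝ) / 625

theorem Q0_herm : Q0.IsHermitian := by
  ext i j
  simp only [Matrix.conjTranspose_apply, Q0, star_trivial]
  rw [M_symm]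

theorem Q0_sq : Q0 * Q0 = 1 := by
  ext i j
  rw [Matrix.mul_apply, Matrix.one_apply]
  have h := M_sq i j
  have h2 : (∑ k, (M i k : ℝ) * (M k j : ℝ)) = if i = j then 390625 else 0 := by
    have := congrArg (fun z : ℤ => (z : ℝ)) h
    simpa using this
  have h3 : ∑ k, Q0 i k * Q0 k j = (∑ k, (M i k : ℝ) * (M k j : ℝ)) / 390625 := by
    rw [Finset.sum_div]
    refine Finset.sum_congr rfl fun k _ => ?_
    simp only [Q0]
    ring
  rw [h3, h2]
  split_ifs <;> norm_num

theorem Q0_tr : ∑ i, Q0 i i = -2 := by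
  have h2 : (∑ i, (M i i : ℝ)) = -1250 := by
    have := congrArg (fun z : ℤ => (z : ℝ)) M_tr
    simpa using this
  have h3 : ∑ i, Q0 i i = (∑ i, (M i i : ℝ)) / 625 := by
    rw [Finset.sum_div]
    rfl
  rw [h3, h2]
  norm_num

theorem Q0_pat : ∀ i j, i ≠ j → (Q0 i j ≠ 0 ↔ G.Adj i j) := by
  intro i j hij
  have : Q0 i j ≠ 0 ↔ M i j ≠ 0 := by
    simp [Q0]
  rw [this]
  exact ⟨fun h => ⟨hij, h⟩, fun h => h.2⟩

/-- Every symmetric involution with the pattern of `G` has trace `±2`. -/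
theorem tr_sq (Q : Matrix (Fin 10) (Fin 10) ℝ) (hs : ∀ i j, Q i j = Q j i) (hQ : Q * Q = 1)
    (hp : ∀ i j, i ≠ j → (Q i j ≠ 0 ↔ G.Adj i j)) : (∑ i, Q i i) ^ 2 = 4 := by
  have hz : ∀ i j, i ≠ j → M i j = 0 → Q i j = 0 := by
    intro i j hij hM
    by_contra h
    exact ((hp i j hij).1 h).2 hM
  have hn : ∀ i j, i ≠ j → M i j ≠ 0 → Q i j ≠ 0 := fun i j hij hM => (hp i j hij).2 ⟨hij, hM⟩
  have E : ∀ i j, Q i 0 * Q j 0 + Q i 1 * Q j 1 + Q i 2 * Q j 2 + Q i 3 * Q j 3 + Q i 4 * Q j 4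
      + Q i 5 * Q j 5 + Q i 6 * Q j 6 + Q i 7 * Q j 7 + Q i 8 * Q j 8 + Q i 9 * Q j 9
      = if i = j then 1 else 0 := by
    intro i j
    have := congrFun (congrFun hQ i) j
    rw [Matrix.mul_apply, Matrix.one_apply, R2.NestCore.sum10] at this
    rw [hs 0 j, hs 1 j, hs 2 j, hs 3 j, hs 4 j, hs 5 j, hs 6 j, hs 7 j, hs 8 j, hs 9 j] at this
    exact this
  have n01 : Q 0 1 ≠ 0 := hn 0 1 (by decide) (by decide)
  have n02 : Q 0 2 ≠ 0 := hn 0 2 (by decide) (by decide)
  have z03 : Q 0 3 = 0 := hz 0 3 (by decide) (by decide)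
  have n04 : Q 0 4 ≠ 0 := hn 0 4 (by decide) (by decide)
  have z05 : Q 0 5 = 0 := hz 0 5 (by decide) (by decide)
  have n06 : Q 0 6 ≠ 0 := hn 0 6 (by decide) (by decide)
  have z07 : Q 0 7 = 0 := hz 0 7 (by decide) (by decide)
  have n08 : Q 0 8 ≠ 0 := hn 0 8 (by decide) (by decide)
  have z09 : Q 0 9 = 0 := hz 0 9 (by decide) (by decide)
  have s10 : Q 1 0 = Q 0 1 := hs 1 0
  have z12 : Q 1 2 = 0 := hz 1 2 (by decide) (by decide)
  have n13 : Q 1 3 ≠ 0 := hn 1 3 (by decide) (by decide)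
  have n14 : Q 1 4 ≠ 0 := hn 1 4 (by decide) (by decide)
  have z15 : Q 1 5 = 0 := hz 1 5 (by decide) (by decide)
  have n16 : Q 1 6 ≠ 0 := hn 1 6 (by decide) (by decide)
  have z17 : Q 1 7 = 0 := hz 1 7 (by decide) (by decide)
  have z18 : Q 1 8 = 0 := hz 1 8 (by decide) (by decide)
  have n19 : Q 1 9 ≠ 0 := hn 1 9 (by decide) (by decide)
  have s20 : Q 2 0 = Q 0 2 := hs 2 0
  have z21 : Q 2 1 = 0 := hz 2 1 (by decide) (by decide)
  have n23 : Q 2 3 ≠ 0 := hn 2 3 (by decide) (by decide)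
  have z24 : Q 2 4 = 0 := hz 2 4 (by decide) (by decide)
  have n25 : Q 2 5 ≠ 0 := hn 2 5 (by decide) (by decide)
  have z26 : Q 2 6 = 0 := hz 2 6 (by decide) (by decide)
  have n27 : Q 2 7 ≠ 0 := hn 2 7 (by decide) (by decide)
  have n28 : Q 2 8 ≠ 0 := hn 2 8 (by decide) (by decide)
  have z29 : Q 2 9 = 0 := hz 2 9 (by decide) (by decide)
  have z30 : Q 3 0 = 0 := hz 3 0 (by decide) (by decide)
  have s31 : Q 3 1 = Q 1 3 := hs 3 1
  have s32 : Q 3 2 = Q 2 3 := hs 3 2
  have z34 : Q 3 4 = 0 := hz 3 4 (by decide) (by decide)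
  have n35 : Q 3 5 ≠ 0 := hn 3 5 (by decide) (by decide)
  have z36 : Q 3 6 = 0 := hz 3 6 (by decide) (by decide)
  have n37 : Q 3 7 ≠ 0 := hn 3 7 (by decide) (by decide)
  have z38 : Q 3 8 = 0 := hz 3 8 (by decide) (by decide)
  have n39 : Q 3 9 ≠ 0 := hn 3 9 (by decide) (by decide)
  have s40 : Q 4 0 = Q 0 4 := hs 4 0
  have s41 : Q 4 1 = Q 1 4 := hs 4 1
  have z42 : Q 4 2 = 0 := hz 4 2 (by decide) (by decide)
  have z43 : Q 4 3 = 0 := hz 4 3 (by decide) (by decide)
  have z45 : Q 4 5 = 0 := hz 4 5 (by decide) (by decide)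
  have z46 : Q 4 6 = 0 := hz 4 6 (by decide) (by decide)
  have n47 : Q 4 7 ≠ 0 := hn 4 7 (by decide) (by decide)
  have z48 : Q 4 8 = 0 := hz 4 8 (by decide) (by decide)
  have z49 : Q 4 9 = 0 := hz 4 9 (by decide) (by decide)
  have z50 : Q 5 0 = 0 := hz 5 0 (by decide) (by decide)
  have z51 : Q 5 1 = 0 := hz 5 1 (by decide) (by decide)
  have s52 : Q 5 2 = Q 2 5 := hs 5 2
  have s53 : Q 5 3 = Q 3 5 := hs 5 3
  have z54 : Q 5 4 = 0 := hz 5 4 (by decide) (by decide)
  have n56 : Q 5 6 ≠ 0 := hn 5 6 (by decide) (by decide)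
  have z57 : Q 5 7 = 0 := hz 5 7 (by decide) (by decide)
  have z58 : Q 5 8 = 0 := hz 5 8 (by decide) (by decide)
  have z59 : Q 5 9 = 0 := hz 5 9 (by decide) (by decide)
  have s60 : Q 6 0 = Q 0 6 := hs 6 0
  have s61 : Q 6 1 = Q 1 6 := hs 6 1
  have z62 : Q 6 2 = 0 := hz 6 2 (by decide) (by decide)
  have z63 : Q 6 3 = 0 := hz 6 3 (by decide) (by decide)
  have z64 : Q 6 4 = 0 := hz 6 4 (by decide) (by decide)
  have s65 : Q 6 5 = Q 5 6 := hs 6 5
  have z67 : Q 6 7 = 0 := hz 6 7 (by decide) (by decide)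
  have n68 : Q 6 8 ≠ 0 := hn 6 8 (by decide) (by decide)
  have n69 : Q 6 9 ≠ 0 := hn 6 9 (by decide) (by decide)
  have z70 : Q 7 0 = 0 := hz 7 0 (by decide) (by decide)
  have z71 : Q 7 1 = 0 := hz 7 1 (by decide) (by decide)
  have s72 : Q 7 2 = Q 2 7 := hs 7 2
  have s73 : Q 7 3 = Q 3 7 := hs 7 3
  have s74 : Q 7 4 = Q 4 7 := hs 7 4
  have z75 : Q 7 5 = 0 := hz 7 5 (by decide) (by decide)
  have z76 : Q 7 6 = 0 := hz 7 6 (by decide) (by decide)
  have n78 : Q 7 8 ≠ 0 := hn 7 8 (by decide) (by decide)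
  have n79 : Q 7 9 ≠ 0 := hn 7 9 (by decide) (by decide)
  have s80 : Q 8 0 = Q 0 8 := hs 8 0
  have z81 : Q 8 1 = 0 := hz 8 1 (by decide) (by decide)
  have s82 : Q 8 2 = Q 2 8 := hs 8 2
  have z83 : Q 8 3 = 0 := hz 8 3 (by decide) (by decide)
  have z84 : Q 8 4 = 0 := hz 8 4 (by decide) (by decide)
  have z85 : Q 8 5 = 0 := hz 8 5 (by decide) (by decide)
  have s86 : Q 8 6 = Q 6 8 := hs 8 6
  have s87 : Q 8 7 = Q 7 8 := hs 8 7
  have z89 : Q 8 9 = 0 := hz 8 9 (by decide) (by decide)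
  have z90 : Q 9 0 = 0 := hz 9 0 (by decide) (by decide)
  have s91 : Q 9 1 = Q 1 9 := hs 9 1
  have z92 : Q 9 2 = 0 := hz 9 2 (by decide) (by decide)
  have s93 : Q 9 3 = Q 3 9 := hs 9 3
  have z94 : Q 9 4 = 0 := hz 9 4 (by decide) (by decide)
  have z95 : Q 9 5 = 0 := hz 9 5 (by decide) (by decide)
  have s96 : Q 9 6 = Q 6 9 := hs 9 6
  have s97 : Q 9 7 = Q 7 9 := hs 9 7
  have z98 : Q 9 8 = 0 := hz 9 8 (by decide) (by decide)
  have h03 : Q 0 1 * Q 1 3 + Q 0 2 * Q 2 3 = 0 := by
    have e := E 0 3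
    rw [if_neg (by decide)] at e
    simp only [z03, z05, z07, z09, z12, z15, z17, z18, z21, z24, z26, z29, z30, z34, z36, z38, z42, z43, z45, z46, z48, z49, z50, z51, z54, z57, z58, z59, z62, z63, z64, z67, z70, z71, z75, z76, z81, z83, z84, z85, z89, z90, z92, z94, z95, z98, s10, s20, s31, s32, s40, s41, s52, s53, s60, s61, s65, s72, s73, s74, s80, s82, s86, s87, s91, s93, s96, s97, mul_zero, zero_mul, add_zero, zero_add] at e
    linear_combination e
  have h12 : Q 0 1 * Q 0 2 + Q 1 3 * Q 2 3 = 0 := by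
    have e := E 1 2
    rw [if_neg (by decide)] at e
    simp only [z03, z05, z07, z09, z12, z15, z17, z18, z21, z24, z26, z29, z30, z34, z36, z38, z42, z43, z45, z46, z48, z49, z50, z51, z54, z57, z58, z59, z62, z63, z64, z67, z70, z71, z75, z76, z81, z83, z84, z85, z89, z90, z92, z94, z95, z98, s10, s20, s31, s32, s40, s41, s52, s53, s60, s61, s65, s72, s73, s74, s80, s82, s86, s87, s91, s93, s96, s97, mul_zero, zero_mul, add_zero, zero_add] at e
    linear_combination e
  have h07 : Q 0 2 * Q 2 7 + Q 0 4 * Q 4 7 + Q 0 8 * Q 7 8 = 0 := by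
    have e := E 0 7
    rw [if_neg (by decide)] at e
    simp only [z03, z05, z07, z09, z12, z15, z17, z18, z21, z24, z26, z29, z30, z34, z36, z38, z42, z43, z45, z46, z48, z49, z50, z51, z54, z57, z58, z59, z62, z63, z64, z67, z70, z71, z75, z76, z81, z83, z84, z85, z89, z90, z92, z94, z95, z98, s10, s20, s31, s32, s40, s41, s52, s53, s60, s61, s65, s72, s73, s74, s80, s82, s86, s87, s91, s93, s96, s97, mul_zero, zero_mul, add_zero, zero_add] at e
    linear_combination e
  have h17 : Q 1 3 * Q 3 7 + Q 1 4 * Q 4 7 + Q 1 9 * Q 7 9 = 0 := by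
    have e := E 1 7
    rw [if_neg (by decide)] at e
    simp only [z03, z05, z07, z09, z12, z15, z17, z18, z21, z24, z26, z29, z30, z34, z36, z38, z42, z43, z45, z46, z48, z49, z50, z51, z54, z57, z58, z59, z62, z63, z64, z67, z70, z71, z75, z76, z81, z83, z84, z85, z89, z90, z92, z94, z95, z98, s10, s20, s31, s32, s40, s41, s52, s53, s60, s61, s65, s72, s73, s74, s80, s82, s86, s87, s91, s93, s96, s97, mul_zero, zero_mul, add_zero, zero_add] at e
    linear_combination e
  have h24 : Q 0 2 * Q 0 4 + Q 2 7 * Q 4 7 = 0 := by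
    have e := E 2 4
    rw [if_neg (by decide)] at e
    simp only [z03, z05, z07, z09, z12, z15, z17, z18, z21, z24, z26, z29, z30, z34, z36, z38, z42, z43, z45, z46, z48, z49, z50, z51, z54, z57, z58, z59, z62, z63, z64, z67, z70, z71, z75, z76, z81, z83, z84, z85, z89, z90, z92, z94, z95, z98, s10, s20, s31, s32, s40, s41, s52, s53, s60, s61, s65, s72, s73, s74, s80, s82, s86, s87, s91, s93, s96, s97, mul_zero, zero_mul, add_zero, zero_add] at e
    linear_combination e
  have h34 : Q 1 3 * Q 1 4 + Q 3 7 * Q 4 7 = 0 := by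
    have e := E 3 4
    rw [if_neg (by decide)] at e
    simp only [z03, z05, z07, z09, z12, z15, z17, z18, z21, z24, z26, z29, z30, z34, z36, z38, z42, z43, z45, z46, z48, z49, z50, z51, z54, z57, z58, z59, z62, z63, z64, z67, z70, z71, z75, z76, z81, z83, z84, z85, z89, z90, z92, z94, z95, z98, s10, s20, s31, s32, s40, s41, s52, s53, s60, s61, s65, s72, s73, s74, s80, s82, s86, s87, s91, s93, s96, s97, mul_zero, zero_mul, add_zero, zero_add] at e
    linear_combination e
  have h48 : Q 0 4 * Q 0 8 + Q 4 7 * Q 7 8 = 0 := by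
    have e := E 4 8
    rw [if_neg (by decide)] at e
    simp only [z03, z05, z07, z09, z12, z15, z17, z18, z21, z24, z26, z29, z30, z34, z36, z38, z42, z43, z45, z46, z48, z49, z50, z51, z54, z57, z58, z59, z62, z63, z64, z67, z70, z71, z75, z76, z81, z83, z84, z85, z89, z90, z92, z94, z95, z98, s10, s20, s31, s32, s40, s41, s52, s53, s60, s61, s65, s72, s73, s74, s80, s82, s86, s87, s91, s93, s96, s97, mul_zero, zero_mul, add_zero, zero_add] at e
    linear_combination e
  have h49 : Q 1 4 * Q 1 9 + Q 4 7 * Q 7 9 = 0 := by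
    have e := E 4 9
    rw [if_neg (by decide)] at e
    simp only [z03, z05, z07, z09, z12, z15, z17, z18, z21, z24, z26, z29, z30, z34, z36, z38, z42, z43, z45, z46, z48, z49, z50, z51, z54, z57, z58, z59, z62, z63, z64, z67, z70, z71, z75, z76, z81, z83, z84, z85, z89, z90, z92, z94, z95, z98, s10, s20, s31, s32, s40, s41, s52, s53, s60, s61, s65, s72, s73, s74, s80, s82, s86, s87, s91, s93, s96, s97, mul_zero, zero_mul, add_zero, zero_add] at e
    linear_combination e
  have h46 : Q 0 4 * Q 0 6 + Q 1 4 * Q 1 6 = 0 := by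
    have e := E 4 6
    rw [if_neg (by decide)] at e
    simp only [z03, z05, z07, z09, z12, z15, z17, z18, z21, z24, z26, z29, z30, z34, z36, z38, z42, z43, z45, z46, z48, z49, z50, z51, z54, z57, z58, z59, z62, z63, z64, z67, z70, z71, z75, z76, z81, z83, z84, z85, z89, z90, z92, z94, z95, z98, s10, s20, s31, s32, s40, s41, s52, s53, s60, s61, s65, s72, s73, s74, s80, s82, s86, s87, s91, s93, s96, s97, mul_zero, zero_mul, add_zero, zero_add] at e
    linear_combination e
  have h18 : Q 0 1 * Q 0 8 + Q 1 6 * Q 6 8 = 0 := by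
    have e := E 1 8
    rw [if_neg (by decide)] at e
    simp only [z03, z05, z07, z09, z12, z15, z17, z18, z21, z24, z26, z29, z30, z34, z36, z38, z42, z43, z45, z46, z48, z49, z50, z51, z54, z57, z58, z59, z62, z63, z64, z67, z70, z71, z75, z76, z81, z83, z84, z85, z89, z90, z92, z94, z95, z98, s10, s20, s31, s32, s40, s41, s52, s53, s60, s61, s65, s72, s73, s74, s80, s82, s86, s87, s91, s93, s96, s97, mul_zero, zero_mul, add_zero, zero_add] at e
    linear_combination e
  have h67 : Q 6 8 * Q 7 8 + Q 6 9 * Q 7 9 = 0 := by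
    have e := E 6 7
    rw [if_neg (by decide)] at e
    simp only [z03, z05, z07, z09, z12, z15, z17, z18, z21, z24, z26, z29, z30, z34, z36, z38, z42, z43, z45, z46, z48, z49, z50, z51, z54, z57, z58, z59, z62, z63, z64, z67, z70, z71, z75, z76, z81, z83, z84, z85, z89, z90, z92, z94, z95, z98, s10, s20, s31, s32, s40, s41, s52, s53, s60, s61, s65, s72, s73, s74, s80, s82, s86, s87, s91, s93, s96, s97, mul_zero, zero_mul, add_zero, zero_add] at e
    linear_combination e
  have h89 : Q 6 8 * Q 6 9 + Q 7 8 * Q 7 9 = 0 := by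
    have e := E 8 9
    rw [if_neg (by decide)] at e
    simp only [z03, z05, z07, z09, z12, z15, z17, z18, z21, z24, z26, z29, z30, z34, z36, z38, z42, z43, z45, z46, z48, z49, z50, z51, z54, z57, z58, z59, z62, z63, z64, z67, z70, z71, z75, z76, z81, z83, z84, z85, z89, z90, z92, z94, z95, z98, s10, s20, s31, s32, s40, s41, s52, s53, s60, s61, s65, s72, s73, s74, s80, s82, s86, s87, s91, s93, s96, s97, mul_zero, zero_mul, add_zero, zero_add] at e
    linear_combination e
  have h29 : Q 2 3 * Q 3 9 + Q 2 7 * Q 7 9 = 0 := by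
    have e := E 2 9
    rw [if_neg (by decide)] at e
    simp only [z03, z05, z07, z09, z12, z15, z17, z18, z21, z24, z26, z29, z30, z34, z36, z38, z42, z43, z45, z46, z48, z49, z50, z51, z54, z57, z58, z59, z62, z63, z64, z67, z70, z71, z75, z76, z81, z83, z84, z85, z89, z90, z92, z94, z95, z98, s10, s20, s31, s32, s40, s41, s52, s53, s60, s61, s65, s72, s73, s74, s80, s82, s86, s87, s91, s93, s96, s97, mul_zero, zero_mul, add_zero, zero_add] at e
    linear_combination e
  have h38 : Q 2 3 * Q 2 8 + Q 3 7 * Q 7 8 = 0 := by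
    have e := E 3 8
    rw [if_neg (by decide)] at e
    simp only [z03, z05, z07, z09, z12, z15, z17, z18, z21, z24, z26, z29, z30, z34, z36, z38, z42, z43, z45, z46, z48, z49, z50, z51, z54, z57, z58, z59, z62, z63, z64, z67, z70, z71, z75, z76, z81, z83, z84, z85, z89, z90, z92, z94, z95, z98, s10, s20, s31, s32, s40, s41, s52, s53, s60, s61, s65, s72, s73, s74, s80, s82, s86, s87, s91, s93, s96, s97, mul_zero, zero_mul, add_zero, zero_add] at e
    linear_combination e
  have e47 : Q 4 7 * (Q 4 4 + Q 7 7) = 0 := by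
    have e := E 4 7
    rw [if_neg (by decide)] at e
    simp only [z03, z05, z07, z09, z12, z15, z17, z18, z21, z24, z26, z29, z30, z34, z36, z38, z42, z43, z45, z46, z48, z49, z50, z51, z54, z57, z58, z59, z62, z63, z64, z67, z70, z71, z75, z76, z81, z83, z84, z85, z89, z90, z92, z94, z95, z98, s10, s20, s31, s32, s40, s41, s52, s53, s60, s61, s65, s72, s73, s74, s80, s82, s86, s87, s91, s93, s96, s97, mul_zero, zero_mul, add_zero, zero_add] at e
    linear_combination e
  have e56 : Q 5 6 * (Q 5 5 + Q 6 6) = 0 := by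
    have e := E 5 6
    rw [if_neg (by decide)] at e
    simp only [z03, z05, z07, z09, z12, z15, z17, z18, z21, z24, z26, z29, z30, z34, z36, z38, z42, z43, z45, z46, z48, z49, z50, z51, z54, z57, z58, z59, z62, z63, z64, z67, z70, z71, z75, z76, z81, z83, z84, z85, z89, z90, z92, z94, z95, z98, s10, s20, s31, s32, s40, s41, s52, s53, s60, s61, s65, s72, s73, s74, s80, s82, s86, s87, s91, s93, s96, s97, mul_zero, zero_mul, add_zero, zero_add] at e
    linear_combination e
  have e02 : Q 0 2 * (Q 0 0 + Q 2 2) + Q 0 8 * Q 2 8 = 0 := by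
    have e := E 0 2
    rw [if_neg (by decide)] at e
    simp only [z03, z05, z07, z09, z12, z15, z17, z18, z21, z24, z26, z29, z30, z34, z36, z38, z42, z43, z45, z46, z48, z49, z50, z51, z54, z57, z58, z59, z62, z63, z64, z67, z70, z71, z75, z76, z81, z83, z84, z85, z89, z90, z92, z94, z95, z98, s10, s20, s31, s32, s40, s41, s52, s53, s60, s61, s65, s72, s73, s74, s80, s82, s86, s87, s91, s93, s96, s97, mul_zero, zero_mul, add_zero, zero_add] at e
    linear_combination e
  have e13 : Q 1 3 * (Q 1 1 + Q 3 3) + Q 1 9 * Q 3 9 = 0 := by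
    have e := E 1 3
    rw [if_neg (by decide)] at e
    simp only [z03, z05, z07, z09, z12, z15, z17, z18, z21, z24, z26, z29, z30, z34, z36, z38, z42, z43, z45, z46, z48, z49, z50, z51, z54, z57, z58, z59, z62, z63, z64, z67, z70, z71, z75, z76, z81, z83, z84, z85, z89, z90, z92, z94, z95, z98, s10, s20, s31, s32, s40, s41, s52, s53, s60, s61, s65, s72, s73, s74, s80, s82, s86, s87, s91, s93, s96, s97, mul_zero, zero_mul, add_zero, zero_add] at e
    linear_combination e
  have e78 : Q 7 8 * (Q 7 7 + Q 8 8) + Q 2 7 * Q 2 8 = 0 := by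
    have e := E 7 8
    rw [if_neg (by decide)] at e
    simp only [z03, z05, z07, z09, z12, z15, z17, z18, z21, z24, z26, z29, z30, z34, z36, z38, z42, z43, z45, z46, z48, z49, z50, z51, z54, z57, z58, z59, z62, z63, z64, z67, z70, z71, z75, z76, z81, z83, z84, z85, z89, z90, z92, z94, z95, z98, s10, s20, s31, s32, s40, s41, s52, s53, s60, s61, s65, s72, s73, s74, s80, s82, s86, s87, s91, s93, s96, s97, mul_zero, zero_mul, add_zero, zero_add] at e
    linear_combination e
  have e79 : Q 7 9 * (Q 7 7 + Q 9 9) + Q 3 7 * Q 3 9 = 0 := by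
    have e := E 7 9
    rw [if_neg (by decide)] at e
    simp only [z03, z05, z07, z09, z12, z15, z17, z18, z21, z24, z26, z29, z30, z34, z36, z38, z42, z43, z45, z46, z48, z49, z50, z51, z54, z57, z58, z59, z62, z63, z64, z67, z70, z71, z75, z76, z81, z83, z84, z85, z89, z90, z92, z94, z95, z98, s10, s20, s31, s32, s40, s41, s52, s53, s60, s61, s65, s72, s73, s74, s80, s82, s86, s87, s91, s93, s96, s97, mul_zero, zero_mul, add_zero, zero_add] at e
    linear_combination e
  have e04 : Q 0 4 * (Q 0 0 + Q 4 4) + Q 0 1 * Q 1 4 = 0 := by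
    have e := E 0 4
    rw [if_neg (by decide)] at e
    simp only [z03, z05, z07, z09, z12, z15, z17, z18, z21, z24, z26, z29, z30, z34, z36, z38, z42, z43, z45, z46, z48, z49, z50, z51, z54, z57, z58, z59, z62, z63, z64, z67, z70, z71, z75, z76, z81, z83, z84, z85, z89, z90, z92, z94, z95, z98, s10, s20, s31, s32, s40, s41, s52, s53, s60, s61, s65, s72, s73, s74, s80, s82, s86, s87, s91, s93, s96, s97, mul_zero, zero_mul, add_zero, zero_add] at e
    linear_combination e
  have e14 : Q 1 4 * (Q 1 1 + Q 4 4) + Q 0 1 * Q 0 4 = 0 := by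
    have e := E 1 4
    rw [if_neg (by decide)] at e
    simp only [z03, z05, z07, z09, z12, z15, z17, z18, z21, z24, z26, z29, z30, z34, z36, z38, z42, z43, z45, z46, z48, z49, z50, z51, z54, z57, z58, z59, z62, z63, z64, z67, z70, z71, z75, z76, z81, z83, z84, z85, z89, z90, z92, z94, z95, z98, s10, s20, s31, s32, s40, s41, s52, s53, s60, s61, s65, s72, s73, s74, s80, s82, s86, s87, s91, s93, s96, s97, mul_zero, zero_mul, add_zero, zero_add] at e
    linear_combination e
  have e01 : Q 0 1 * (Q 0 0 + Q 1 1) + Q 0 4 * Q 1 4 + Q 0 6 * Q 1 6 = 0 := by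
    have e := E 0 1
    rw [if_neg (by decide)] at e
    simp only [z03, z05, z07, z09, z12, z15, z17, z18, z21, z24, z26, z29, z30, z34, z36, z38, z42, z43, z45, z46, z48, z49, z50, z51, z54, z57, z58, z59, z62, z63, z64, z67, z70, z71, z75, z76, z81, z83, z84, z85, z89, z90, z92, z94, z95, z98, s10, s20, s31, s32, s40, s41, s52, s53, s60, s61, s65, s72, s73, s74, s80, s82, s86, s87, s91, s93, s96, s97, mul_zero, zero_mul, add_zero, zero_add] at e
    linear_combination e
  have e44 : Q 4 4 ^ 2 + Q 0 4 ^ 2 + Q 1 4 ^ 2 + Q 4 7 ^ 2 = 1 := by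
    have e := E 4 4
    rw [if_pos rfl] at e
    simp only [z03, z05, z07, z09, z12, z15, z17, z18, z21, z24, z26, z29, z30, z34, z36, z38, z42, z43, z45, z46, z48, z49, z50, z51, z54, z57, z58, z59, z62, z63, z64, z67, z70, z71, z75, z76, z81, z83, z84, z85, z89, z90, z92, z94, z95, z98, s10, s20, s31, s32, s40, s41, s52, s53, s60, s61, s65, s72, s73, s74, s80, s82, s86, s87, s91, s93, s96, s97, mul_zero, zero_mul, add_zero, zero_add] at e
    linear_combination e
  have e47' : Q 4 4 + Q 7 7 = 0 := (mul_eq_zero.1 e47).resolve_left n47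
  have e56' : Q 5 5 + Q 6 6 = 0 := (mul_eq_zero.1 e56).resolve_left n56
  rw [R2.NestCore.sum10]
  exact R2.NestCore.core (Q 0 0) (Q 1 1) (Q 2 2) (Q 3 3) (Q 4 4) (Q 5 5) (Q 6 6) (Q 7 7) (Q 8 8)
    (Q 9 9) (Q 0 1) (Q 0 2) (Q 0 4) (Q 0 6) (Q 0 8) (Q 1 3) (Q 1 4) (Q 1 6) (Q 1 9) (Q 2 3)
    (Q 2 7) (Q 2 8) (Q 3 7) (Q 3 9) (Q 4 7) (Q 6 8) (Q 6 9) (Q 7 8) (Q 7 9)
    n01 n02 n04 n08 n13 n14 n19 n23 n47 n69 n68 n78 n79 h03 h12 h07 h17 h24 h34 h48 h49 h46 h18
    h67 h89 h29 h38 e47' e56' e02 e13 e78 e79 e04 e14 e01 e44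

end Pool.Agent.R2.Nest
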