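import Mathlib

/-!
# Perron eigenvectors of connected graphs
-/

set_option autoImplicit false

open Finset

namespace Pool.Agent.R2.Perron

variable {V : Type*} [Fintype V] [DecidableEq V] (H : SimpleGraph V) [DecidableRel H.Adj]

theorem herm : (H.adjMatrix ℝ).IsHermitian := by
  rw [Matrix.IsHermitian, Matrix.conjTranspose_eq_transpose_of_trivial]
  exact H.transpose_adjMatrix

/-- A connected graph has a positive eigenvector for the largest adjacency eigenvalue. -/
theorem exists_perron (hH : H.Connected) : ∃ (lam : ℝ) (q : V → ℝ), (∀ x, 0 < q x) ∧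
    (H.adjMatrix ℝ).mulVec q = lam • q ∧ ∀ μ ∈ spectrum ℝ (H.adjMatrix ℝ), μ ≤ lam := by
  classical
  have hA := herm H
  obtain ⟨v0⟩ := hH.nonempty
  obtain ⟨i0, -, hi0⟩ := Finset.exists_max_image Finset.univ hA.eigenvalues ⟨v0, Finset.mem_univ _⟩
  set lam := hA.eigenvalues i0 with hlam
  have hmax : ∀ μ ∈ spectrum ℝ (H.adjMatrix ℝ), μ ≤ lam := by
    intro μ hμ
    rw [hA.spectrum_real_eq_range_eigenvalues] at hμ
    obtain ⟨i, rfl⟩ := hμ
    exact hi0 i (Finset.mem_univ i)
  -- lam - A is positive semidefinite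
  have hB : (algebraMap ℝ (Matrix V V ℝ) lam - H.adjMatrix ℝ).IsHermitian := by
    apply Matrix.IsHermitian.sub _ hA
    rw [Matrix.algebraMap_eq_diagonal]
    exact Matrix.isHermitian_diagonal _
  have hpsd : (algebraMap ℝ (Matrix V V ℝ) lam - H.adjMatrix ℝ).PosSemidef := by
    rw [hB.posSemidef_iff_eigenvalues_nonneg]
    intro i
    have h1 := hB.eigenvalues_mem_spectrum_real i
    rw [← spectrum.singleton_sub_eq] at h1
    obtain ⟨a, ha, b, hb, hab⟩ := Set.mem_sub.1 h1
    rw [Set.mem_singleton_iff] at ha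
    rw [Pi.zero_apply, ← hab, ha]
    have := hmax b hb
    linarith
  set v : V → ℝ := (hA.eigenvectorBasis i0).ofLp with hv
  have hAv : (H.adjMatrix ℝ).mulVec v = lam • v := hA.mulVec_eigenvectorBasis i0
  have hv0 : v ≠ 0 := by
    intro h
    have h1 : hA.eigenvectorBasis i0 = 0 := by
      ext x
      exact congrFun h x
    exact (hA.eigenvectorBasis.orthonormal.ne_zero i0) h1
  set w : V → ℝ := fun x => |v x| with hw
  have hw0 : ∀ x, 0 ≤ w x := fun x => abs_nonneg _
  have hquad : ∀ z : V → ℝ, star z ⬝ᵥ (algebraMap ℝ (Matrix V V ℝ) lam - H.adjMatrix ℝ).mulVec z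
      = lam * ∑ x, z x ^ 2 - ∑ x, ∑ y, (if H.Adj x y then z x * z y else 0) := by
    intro z
    rw [Matrix.sub_mulVec, Matrix.algebraMap_eq_diagonal, dotProduct_sub]
    congr 1
    · simp only [dotProduct, Matrix.mulVec_diagonal, Finset.mul_sum]
      refine Finset.sum_congr rfl fun x _ => ?_
      simp
      ring
    · simp only [dotProduct, Matrix.mulVec, SimpleGraph.adjMatrix_apply, Finset.mul_sum]
      refine Finset.sum_congr rfl fun x _ => Finset.sum_congr rfl fun y _ => ?_
      split_ifs <;> simp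
  have hvq : star v ⬝ᵥ (algebraMap ℝ (Matrix V V ℝ) lam - H.adjMatrix ℝ).mulVec v = 0 := by
    rw [Matrix.sub_mulVec, hAv, Matrix.algebraMap_eq_diagonal]
    have : (Matrix.diagonal (algebraMap ℝ (V → ℝ) lam)).mulVec v = lam • v := by
      ext x
      simp [Matrix.mulVec_diagonal]
    rw [this, sub_self, dotProduct_zero]
  have hwq : star w ⬝ᵥ (algebraMap ℝ (Matrix V V ℝ) lam - H.adjMatrix ℝ).mulVec w = 0 := by
    apply le_antisymm
    · rw [hquad] at hvq ⊢
      have h1 : ∑ x, w x ^ 2 = ∑ x, v x ^ 2 := by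
        refine Finset.sum_congr rfl fun x _ => ?_
        simp [hw, sq_abs]
      have h2 : ∑ x, ∑ y, (if H.Adj x y then v x * v y else 0)
          ≤ ∑ x, ∑ y, (if H.Adj x y then w x * w y else 0) := by
        refine Finset.sum_le_sum fun x _ => Finset.sum_le_sum fun y _ => ?_
        split_ifs
        · rw [hw]
          simp only
          rw [← abs_mul]
          exact le_abs_self _
        · exact le_rfl
      rw [h1]
      linarith
    · exact hpsd.dotProduct_mulVec_nonneg w
  have hAw' := (hpsd.dotProduct_mulVec_zero_iff w).1 hwq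
  have hAw : (H.adjMatrix ℝ).mulVec w = lam • w := by
    rw [Matrix.sub_mulVec, Matrix.algebraMap_eq_diagonal] at hAw'
    have : (Matrix.diagonal (algebraMap ℝ (V → ℝ) lam)).mulVec w = lam • w := by
      ext x
      simp [Matrix.mulVec_diagonal]
    rw [this] at hAw'
    exact (sub_eq_zero.1 hAw').symm
  have hstep : ∀ x y, H.Adj x y → w x = 0 → w y = 0 := by
    intro x y hxy hx
    have h1 := congrFun hAw x
    simp only [Matrix.mulVec, dotProduct, SimpleGraph.adjMatrix_apply, Pi.smul_apply,
      smul_eq_mul, hx, mul_zero] at h1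
    have h2 := (Finset.sum_eq_zero_iff_of_nonneg (fun z _ => by
      split_ifs
      · simpa using hw0 z
      · simp)).1 h1 y (Finset.mem_univ y)
    rw [if_pos hxy, one_mul] at h2
    exact h2
  have hreach : ∀ x y, H.Reachable x y → w x = 0 → w y = 0 := by
    intro x y ⟨p⟩
    induction p with
    | nil => exact fun h => h
    | cons hadj _ ih => exact fun h => ih (hstep _ _ hadj h)
  refine ⟨lam, w, fun x => ?_, hAw, hmax⟩
  rcases (hw0 x).lt_or_eq with h | h
  · exact h
  · exfalso
    apply hv0
    ext y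
    have := hreach x y (hH.preconnected x y) h.symm
    simpa [hw] using this

end Pool.Agent.R2.Perron
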