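import Mathlib

/-!
# Case analysis for star complements with at most three vertices
-/

set_option autoImplicit false
set_option linter.unusedVariables false

namespace Pool.Agent.R2.StarCore

theorem core3 (l A B C a b c a' b' c' p1 p2 p3 q1 q2 q3 e : ℝ)
    (hA : A = 0 ∨ A = 1) (hB : B = 0 ∨ B = 1) (hC : C = 0 ∨ C = 1)
    (ha : a = 0 ∨ a = 1) (hb : b = 0 ∨ b = 1) (hc : c = 0 ∨ c = 1)
    (ha' : a' = 0 ∨ a' = 1) (hb' : b' = 0 ∨ b' = 1) (hc' : c' = 0 ∨ c' = 1)
    (he : e = 0 ∨ e = 1) (hcan : B ≤ A ∧ C ≤ B)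
    (D : l^3 - (A^2 + B^2 + C^2) * l - 2 * A * B * C ≠ 0)
    (h1 : A * p2 + C * p3 + a = l * p1) (h2 : A * p1 + B * p3 + b = l * p2)
    (h3 : C * p1 + B * p2 + c = l * p3)
    (g1 : A * q2 + C * q3 + a' = l * q1) (g2 : A * q1 + B * q3 + b' = l * q2)
    (g3 : C * q1 + B * q2 + c' = l * q3)
    (k1 : a * p1 + b * p2 + c * p3 = l) (k2 : a' * q1 + b' * q2 + c' * q3 = l)
    (k3 : a' * p1 + b' * p2 + c' * p3 = -e) (k4 : a * q1 + b * q2 + c * q3 = -e)
    (hu : a + b + c ≠ 0) (hv : a' + b' + c' ≠ 0)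
    (s1 : 1 + p1 + p2 + p3 ≠ 0) (s2 : 1 + q1 + q2 + q3 ≠ 0) :
    A = 0 ∧ B = 0 ∧ C = 0 ∧ l = 1 ∧ a + b + c = 1 := by
  rcases hA with rfl | rfl <;> rcases hB with rfl | rfl <;> rcases hC with rfl | rfl <;>
    first
    | (exfalso; norm_num at hcan; done)
    | (rcases ha with rfl | rfl <;> rcases hb with rfl | rfl <;> rcases hc with rfl | rfl <;>
       first
       | (exfalso; norm_num at hu; done)
       | (rcases ha' with rfl | rfl <;> rcases hb' with rfl | rfl <;> rcases hc' with rfl | rfl <;>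
          first
          | (exfalso; norm_num at hv; done)
          | (rcases he with rfl | rfl <;> grind)))

/-- the same without the normalisation of the labelling -/
theorem core3' (l A B C a b c a' b' c' p1 p2 p3 q1 q2 q3 e : ℝ)
    (hA : A = 0 ∨ A = 1) (hB : B = 0 ∨ B = 1) (hC : C = 0 ∨ C = 1)
    (ha : a = 0 ∨ a = 1) (hb : b = 0 ∨ b = 1) (hc : c = 0 ∨ c = 1)
    (ha' : a' = 0 ∨ a' = 1) (hb' : b' = 0 ∨ b' = 1) (hc' : c' = 0 ∨ c' = 1)
    (he : e = 0 ∨ e = 1)
    (D : l^3 - (A^2 + B^2 + C^2) * l - 2 * A * B * C ≠ 0)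
    (h1 : A * p2 + C * p3 + a = l * p1) (h2 : A * p1 + B * p3 + b = l * p2)
    (h3 : C * p1 + B * p2 + c = l * p3)
    (g1 : A * q2 + C * q3 + a' = l * q1) (g2 : A * q1 + B * q3 + b' = l * q2)
    (g3 : C * q1 + B * q2 + c' = l * q3)
    (k1 : a * p1 + b * p2 + c * p3 = l) (k2 : a' * q1 + b' * q2 + c' * q3 = l)
    (k3 : a' * p1 + b' * p2 + c' * p3 = -e) (k4 : a * q1 + b * q2 + c * q3 = -e)
    (hu : a + b + c ≠ 0) (hv : a' + b' + c' ≠ 0)
    (s1 : 1 + p1 + p2 + p3 ≠ 0) (s2 : 1 + q1 + q2 + q3 ≠ 0) :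
    A = 0 ∧ B = 0 ∧ C = 0 ∧ l = 1 ∧ a + b + c = 1 := by
  -- vertices 1, 2, 3; edges `A = 12`, `B = 23`, `C = 13`
  rcases le_total B A with hBA | hAB
  · rcases le_total C B with hCB | hBC
    · exact core3 l A B C a b c a' b' c' p1 p2 p3 q1 q2 q3 e hA hB hC ha hb hc ha' hb' hc' he
        ⟨hBA, hCB⟩ D h1 h2 h3 g1 g2 g3 k1 k2 k3 k4 hu hv s1 s2
    · rcases le_total C A with hCA | hAC
      · -- A ≥ C ≥ B : swap 1 and 2
        obtain ⟨r1, r2, r3, r4, r5⟩ := core3 l A C B b a c b' a' c' p2 p1 p3 q2 q1 q3 e hA hC hB hb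
          ha hc hb' ha' hc' he ⟨hCA, hBC⟩ (fun h => D (by linear_combination h)) (by linarith) (by linarith)
          (by linarith) (by linarith) (by linarith) (by linarith) (by linarith) (by linarith)
          (by linarith) (by linarith) (fun h => hu (by linear_combination h)) (fun h => hv (by linear_combination h))
          (fun h => s1 (by linear_combination h)) (fun h => s2 (by linear_combination h))
        exact ⟨r1, r3, r2, r4, by linarith⟩
      · -- C ≥ A ≥ B : new order 3, 1, 2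
        obtain ⟨r1, r2, r3, r4, r5⟩ := core3 l C A B c a b c' a' b' p3 p1 p2 q3 q1 q2 e hC hA hB hc
          ha hb hc' ha' hb' he ⟨hAC, hBA⟩ (fun h => D (by linear_combination h)) (by linarith) (by linarith)
          (by linarith) (by linarith) (by linarith) (by linarith) (by linarith) (by linarith)
          (by linarith) (by linarith) (fun h => hu (by linear_combination h)) (fun h => hv (by linear_combination h))
          (fun h => s1 (by linear_combination h)) (fun h => s2 (by linear_combination h))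
        exact ⟨r2, r3, r1, r4, by linarith⟩
  · rcases le_total C A with hCA | hAC
    · -- B ≥ A ≥ C : new order 3, 2, 1
      obtain ⟨r1, r2, r3, r4, r5⟩ := core3 l B A C c b a c' b' a' p3 p2 p1 q3 q2 q1 e hB hA hC hc
        hb ha hc' hb' ha' he ⟨hAB, hCA⟩ (fun h => D (by linear_combination h)) (by linarith) (by linarith)
        (by linarith) (by linarith) (by linarith) (by linarith) (by linarith) (by linarith)
        (by linarith) (by linarith) (fun h => hu (by linear_combination h)) (fun h => hv (by linear_combination h))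
        (fun h => s1 (by linear_combination h)) (fun h => s2 (by linear_combination h))
      exact ⟨r2, r1, r3, r4, by linarith⟩
    · rcases le_total C B with hCB | hBC
      · -- B ≥ C ≥ A : new order 2, 3, 1
        obtain ⟨r1, r2, r3, r4, r5⟩ := core3 l B C A b c a b' c' a' p2 p3 p1 q2 q3 q1 e hB hC hA hb
          hc ha hb' hc' ha' he ⟨hCB, hAC⟩ (fun h => D (by linear_combination h)) (by linarith) (by linarith)
          (by linarith) (by linarith) (by linarith) (by linarith) (by linarith) (by linarith)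
          (by linarith) (by linarith) (fun h => hu (by linear_combination h)) (fun h => hv (by linear_combination h))
          (fun h => s1 (by linear_combination h)) (fun h => s2 (by linear_combination h))
        exact ⟨r3, r1, r2, r4, by linarith⟩
      · -- C ≥ B ≥ A : new order 1, 3, 2
        obtain ⟨r1, r2, r3, r4, r5⟩ := core3 l C B A a c b a' c' b' p1 p3 p2 q1 q3 q2 e hC hB hA ha
          hc hb ha' hc' hb' he ⟨hBC, hAB⟩ (fun h => D (by linear_combination h)) (by linarith) (by linarith)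
          (by linarith) (by linarith) (by linarith) (by linarith) (by linarith) (by linarith)
          (by linarith) (by linarith) (fun h => hu (by linear_combination h)) (fun h => hv (by linear_combination h))
          (fun h => s1 (by linear_combination h)) (fun h => s2 (by linear_combination h))
        exact ⟨r3, r2, r1, r4, by linarith⟩

theorem core2 (l A a b a' b' p1 p2 q1 q2 e : ℝ)
    (hA : A = 0 ∨ A = 1)
    (ha : a = 0 ∨ a = 1) (hb : b = 0 ∨ b = 1)
    (ha' : a' = 0 ∨ a' = 1) (hb' : b' = 0 ∨ b' = 1)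
    (he : e = 0 ∨ e = 1)
    (D : l^2 - A^2 ≠ 0)
    (h1 : A * p2 + a = l * p1) (h2 : A * p1 + b = l * p2)
    (g1 : A * q2 + a' = l * q1) (g2 : A * q1 + b' = l * q2)
    (k1 : a * p1 + b * p2 = l) (k2 : a' * q1 + b' * q2 = l)
    (k3 : a' * p1 + b' * p2 = -e) (k4 : a * q1 + b * q2 = -e)
    (hu : a + b ≠ 0) (hv : a' + b' ≠ 0)
    (s1 : 1 + p1 + p2 ≠ 0) (s2 : 1 + q1 + q2 ≠ 0) :
    A = 0 ∧ l = 1 ∧ a + b = 1 := by
  rcases hA with rfl | rfl <;>
    (rcases ha with rfl | rfl <;> rcases hb with rfl | rfl <;>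
       first
       | (exfalso; norm_num at hu; done)
       | (rcases ha' with rfl | rfl <;> rcases hb' with rfl | rfl <;>
          first
          | (exfalso; norm_num at hv; done)
          | (rcases he with rfl | rfl <;> grind)))

theorem core1 (l a a' p1 q1 e : ℝ)
    (ha : a = 0 ∨ a = 1) (ha' : a' = 0 ∨ a' = 1)
    (he : e = 0 ∨ e = 1) (D : l ≠ 0)
    (h1 : a = l * p1) (g1 : a' = l * q1)
    (k1 : a * p1 = l) (k2 : a' * q1 = l)
    (k3 : a' * p1 = -e) (k4 : a * q1 = -e)
    (s1 : 1 + p1 ≠ 0) (s2 : 1 + q1 ≠ 0) : False := by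
  rcases ha with rfl | rfl <;> rcases ha' with rfl | rfl <;> rcases he with rfl | rfl <;> grind

end Pool.Agent.R2.StarCore
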