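import Pool.Agent.R2.Util

/-!
# The key identity for matrices commuting with a tadpole matrix
-/

set_option autoImplicit false

open Finset

namespace Pool.Agent.R2.TadCore

/-- the sign of `j - i` -/
noncomputable def s {M : ℕ} (i j : Fin M) : ℝ := if i < j then 1 else if j < i then -1 else 0

section

variable {M : ℕ} {J Z : Fin M → Fin M → ℝ}
  (hJ : ∀ i j, J i j = J j i) (hJ3 : ∀ i j : Fin M, i.1 + 1 < j.1 → J i j = 0)
  (hZ : ∀ i j, Z i j = Z j i) (hZ3 : ∀ i j : Fin M, i.1 ≤ j.1 → j.1 ≤ i.1 + 1 → Z i j = 0)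

include hJ hJ3 hZ hZ3

theorem T1 (i j k : Fin M) : J j k * (s i k * Z i k) = s i j * (J j k * Z k i) := by
  rw [hZ k i]
  by_cases h1 : j.1 + 1 < k.1
  · rw [hJ3 _ _ h1]; ring
  by_cases h2 : k.1 + 1 < j.1
  · rw [hJ j k, hJ3 _ _ h2]; ring
  by_cases h3 : i.1 ≤ k.1
  · by_cases h4 : k.1 ≤ i.1 + 1
    · rw [hZ3 _ _ h3 h4]; ring
    · have e1 : s i k = 1 := by
        unfold s; rw [if_pos (Fin.lt_def.2 (by omega))]
      have e2 : s i j = 1 := by
        unfold s; rw [if_pos (Fin.lt_def.2 (by omega))]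
      rw [e1, e2]; ring
  · by_cases h4 : i.1 ≤ k.1 + 1
    · rw [hZ i k, hZ3 _ _ (by omega) h4]; ring
    · have e1 : s i k = -1 := by
        unfold s; rw [if_neg (by rw [Fin.lt_def]; omega), if_pos (Fin.lt_def.2 (by omega))]
      have e2 : s i j = -1 := by
        unfold s; rw [if_neg (by rw [Fin.lt_def]; omega), if_pos (Fin.lt_def.2 (by omega))]
      rw [e1, e2]; ring

theorem T2 (i j k : Fin M) : s i j * (Z j k * J k i) = s k j * Z k j * J k i := by
  rw [hZ j k]
  by_cases h1 : i.1 + 1 < k.1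
  · rw [hJ k i, hJ3 _ _ h1]; ring
  by_cases h2 : k.1 + 1 < i.1
  · rw [hJ3 _ _ h2]; ring
  by_cases h3 : k.1 ≤ j.1
  · by_cases h4 : j.1 ≤ k.1 + 1
    · rw [hZ3 _ _ h3 h4]; ring
    · have e1 : s i j = 1 := by
        unfold s; rw [if_pos (Fin.lt_def.2 (by omega))]
      have e2 : s k j = 1 := by
        unfold s; rw [if_pos (Fin.lt_def.2 (by omega))]
      rw [e1, e2]; ring
  · by_cases h4 : k.1 ≤ j.1 + 1
    · rw [hZ k j, hZ3 _ _ (by omega) h4]; ring
    · have e1 : s i j = -1 := by
        unfold s; rw [if_neg (by rw [Fin.lt_def]; omega), if_pos (Fin.lt_def.2 (by omega))]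
      have e2 : s k j = -1 := by
        unfold s; rw [if_neg (by rw [Fin.lt_def]; omega), if_pos (Fin.lt_def.2 (by omega))]
      rw [e1, e2]; ring

variable {g ξ : Fin M → ℝ}
  (hcomm : ∀ p q, ∑ k, J p k * Z k q - ∑ k, Z p k * J k q = ξ p * g q - g p * ξ q)

include hcomm

/-- the vector identity -/
theorem vec_id (w : Fin M → ℝ) (μ : ℝ) (hw : ∀ i, ∑ k, J i k * w k = μ * w i) (j : Fin M) :
    ∑ k, J j k * (∑ i, s i k * Z i k * w i) - μ * ∑ i, s i j * Z i j * w i
      = ∑ i, s i j * w i * (ξ j * g i - g j * ξ i) := by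
  have h1 : ∑ k, J j k * (∑ i, s i k * Z i k * w i)
      = ∑ i, s i j * w i * ∑ k, J j k * Z k i := by
    simp_rw [Finset.mul_sum]
    rw [Finset.sum_comm]
    refine Finset.sum_congr rfl fun i _ => Finset.sum_congr rfl fun k _ => ?_
    have := T1 hJ hJ3 hZ hZ3 i j k
    linear_combination w i * this
  have h2 : ∑ i, s i j * w i * ∑ k, Z j k * J k i = μ * ∑ i, s i j * Z i j * w i := by
    simp_rw [Finset.mul_sum]
    rw [Finset.sum_comm]
    refine Finset.sum_congr rfl fun k _ => ?_
    have h3 : ∑ i, s i j * w i * (Z j k * J k i) = s k j * Z k j * ∑ i, J k i * w i := by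
      rw [Finset.mul_sum]
      refine Finset.sum_congr rfl fun i _ => ?_
      have := T2 hJ hJ3 hZ hZ3 i j k
      linear_combination w i * this
    rw [h3, hw]; ring
  rw [h1, ← h2, ← Finset.sum_sub_distrib]
  refine Finset.sum_congr rfl fun i _ => ?_
  rw [← mul_sub, hcomm]


section

variable {z l : Fin M} (hz : z.1 = 0) (hl : l.1 + 1 = M) (hzl : z ≠ l) {γ γ' : ℝ}
  (hg : ∀ i, g i = if i = z then γ else if i = l then γ' else 0) (hξz : ξ z = 0) (hξl : ξ l = 0)

include hz hl hzl hg hξz hξl

omit hJ hJ3 hZ hZ3 hcomm in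
theorem rhs_eq (w : Fin M → ℝ) (j : Fin M) :
    ∑ i, s i j * w i * (ξ j * g i - g j * ξ i)
      = (γ * w z - γ' * w l) * ξ j
        + (∑ i, w i * ξ i) * (if j = z then γ else if j = l then -γ' else 0) := by
  have e0 : ∑ i, s i j * w i * (ξ j * g i - g j * ξ i)
      = ξ j * ∑ i, s i j * w i * g i - g j * ∑ i, s i j * w i * ξ i := by
    rw [Finset.mul_sum, Finset.mul_sum, ← Finset.sum_sub_distrib]
    refine Finset.sum_congr rfl fun i _ => by ring
  have e1 : ∑ i, s i j * w i * g i = s z j * w z * γ + s l j * w l * γ' := by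
    rw [Finset.sum_eq_add z l hzl]
    · rw [hg z, hg l, if_pos rfl, if_neg hzl.symm, if_pos rfl]
    · rintro c _ ⟨h1, h2⟩
      rw [hg c, if_neg h1, if_neg h2, mul_zero]
    · intro h; exact absurd (Finset.mem_univ _) h
    · intro h; exact absurd (Finset.mem_univ _) h
  rw [e0, e1]
  by_cases hjz : j = z
  · subst hjz
    rw [if_pos rfl, hξz, hg j, if_pos rfl]
    have e2 : ∑ i, s i j * w i * ξ i = -∑ i, w i * ξ i := by
      rw [← Finset.sum_neg_distrib]
      refine Finset.sum_congr rfl fun i _ => ?_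
      by_cases hi : i = j
      · rw [hi, hξz]; ring
      · have : s i j = -1 := by
          have : i.1 ≠ j.1 := fun h => hi (Fin.ext h)
          unfold s; rw [if_neg (by rw [Fin.lt_def]; omega), if_pos (Fin.lt_def.2 (by omega))]
        rw [this]; ring
    rw [e2]; ring
  rw [if_neg hjz]
  by_cases hjl : j = l
  · subst hjl
    rw [if_pos rfl, hξl, hg j, if_neg hjz, if_pos rfl]
    have e2 : ∑ i, s i j * w i * ξ i = ∑ i, w i * ξ i := by
      refine Finset.sum_congr rfl fun i _ => ?_
      by_cases hi : i = j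
      · rw [hi, hξl]; ring
      · have : s i j = 1 := by
          have : i.1 ≠ j.1 := fun h => hi (Fin.ext h)
          have := i.2
          unfold s; rw [if_pos (Fin.lt_def.2 (by omega))]
        rw [this]; ring
    rw [e2]; ring
  · rw [if_neg hjl, hg j, if_neg hjz, if_neg hjl]
    have h1 : s z j = 1 := by
      have : j.1 ≠ z.1 := fun h => hjz (Fin.ext h)
      unfold s; rw [if_pos (Fin.lt_def.2 (by omega))]
    have h2 : s l j = -1 := by
      have : j.1 ≠ l.1 := fun h => hjl (Fin.ext h)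
      have := j.2
      unfold s; rw [if_neg (by rw [Fin.lt_def]; omega), if_pos (Fin.lt_def.2 (by omega))]
    rw [h1, h2]; ring

/-- the vector identity, end form -/
theorem vec_id' (w : Fin M → ℝ) (μ : ℝ) (hw : ∀ i, ∑ k, J i k * w k = μ * w i) (j : Fin M) :
    ∑ k, J j k * (∑ i, s i k * Z i k * w i) - μ * ∑ i, s i j * Z i j * w i
      = (γ * w z - γ' * w l) * ξ j
        + (∑ i, w i * ξ i) * (if j = z then γ else if j = l then -γ' else 0) := by
  rw [vec_id hJ hJ3 hZ hZ3 hcomm w μ hw j, rhs_eq hz hl hzl hg hξz hξl]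

/-- pairing with an eigenvector -/
theorem pairing (w : Fin M → ℝ) (μ : ℝ) (hw : ∀ i, ∑ k, J i k * w k = μ * w i) :
    (γ * w z - γ' * w l) * ∑ i, w i * ξ i = 0 := by
  set q : Fin M → ℝ := fun k => ∑ i, s i k * Z i k * w i with hq
  have h1 : ∑ j, w j * (∑ k, J j k * q k - μ * q j) = 0 := by
    have : ∑ j, w j * ∑ k, J j k * q k = ∑ j, w j * (μ * q j) := by
      simp_rw [Finset.mul_sum]
      rw [Finset.sum_comm]
      refine Finset.sum_congr rfl fun k _ => ?_
      have h2 : ∑ j, w j * (J j k * q k) = (∑ j, J k j * w j) * q k := by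
        rw [Finset.sum_mul]
        refine Finset.sum_congr rfl fun j _ => ?_
        rw [hJ j k]; ring
      rw [h2, hw]; ring
    simp_rw [mul_sub]
    rw [Finset.sum_sub_distrib, this, sub_self]
  have h2 : ∀ j, ∑ k, J j k * q k - μ * q j = (γ * w z - γ' * w l) * ξ j
        + (∑ i, w i * ξ i) * (if j = z then γ else if j = l then -γ' else 0) := fun j =>
    vec_id' hJ hJ3 hZ hZ3 hcomm hz hl hzl hg hξz hξl w μ hw j
  simp_rw [h2, mul_add] at h1
  rw [Finset.sum_add_distrib] at h1
  have h3 : ∑ j, w j * ((γ * w z - γ' * w l) * ξ j) = (γ * w z - γ' * w l) * ∑ i, w i * ξ i := by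
    rw [Finset.mul_sum]
    refine Finset.sum_congr rfl fun i _ => by ring
  have h4 : ∑ j, w j * ((∑ i, w i * ξ i) * (if j = z then γ else if j = l then -γ' else 0))
      = (γ * w z - γ' * w l) * ∑ i, w i * ξ i := by
    rw [Finset.sum_eq_add z l hzl]
    · rw [if_pos rfl, if_neg hzl.symm, if_pos rfl]; ring
    · rintro c _ ⟨h1, h2⟩
      rw [if_neg h1, if_neg h2, mul_zero, mul_zero]
    · intro h; exact absurd (Finset.mem_univ _) h
    · intro h; exact absurd (Finset.mem_univ _) h
  rw [h3, h4] at h1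
  linarith

omit hg hξz hξl hl hzl hcomm hZ hZ3 in
/-- a kernel vector of a Jacobi matrix vanishing at the first position vanishes -/
theorem ker_first (hJ1 : ∀ i j : Fin M, i.1 + 1 = j.1 → J i j ≠ 0) (u : Fin M → ℝ) (μ : ℝ)
    (hu : ∀ i, ∑ k, J i k * u k = μ * u i) (hu0 : u z = 0) : ∀ i, u i = 0 := by
  have key : ∀ m : ℕ, ∀ i : Fin M, i.1 ≤ m → u i = 0 := by
    intro m
    induction m with
    | zero =>
      intro i hi
      have : i = z := Fin.ext (by omega)
      rw [this, hu0]
    | succ m ih =>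
      intro i hi
      by_cases him : i.1 ≤ m
      · exact ih i him
      have him' : i.1 = m + 1 := by omega
      have hm : m < M := by have := i.2; omega
      have h := hu ⟨m, hm⟩
      rw [ih ⟨m, hm⟩ le_rfl, mul_zero, Finset.sum_eq_single i] at h
      · rcases mul_eq_zero.1 h with h1 | h1
        · exact absurd h1 (hJ1 _ _ (by simp [him']))
        · exact h1
      · intro b _ hb
        by_cases hb1 : b.1 ≤ m
        · rw [ih b hb1, mul_zero]
        · have : b.1 ≠ i.1 := fun h => hb (Fin.ext h)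
          rw [hJ3 _ _ (show m + 1 < b.1 by omega), zero_mul]
      · intro h; exact absurd (Finset.mem_univ _) h
  exact fun i => key i.1 i le_rfl

omit hg hξz hξl hz hzl hcomm hZ hZ3 in
/-- a kernel vector of a Jacobi matrix vanishing at the last position vanishes -/
theorem ker_last (hJ1 : ∀ i j : Fin M, i.1 + 1 = j.1 → J i j ≠ 0) (u : Fin M → ℝ) (μ : ℝ)
    (hu : ∀ i, ∑ k, J i k * u k = μ * u i) (hu0 : u l = 0) : ∀ i, u i = 0 := by
  have key : ∀ m : ℕ, ∀ i : Fin M, M ≤ i.1 + 1 + m → u i = 0 := by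
    intro m
    induction m with
    | zero =>
      intro i hi
      have : i = l := Fin.ext (by have := i.2; omega)
      rw [this, hu0]
    | succ m ih =>
      intro i hi
      by_cases him : M ≤ i.1 + 1 + m
      · exact ih i him
      have hm : i.1 + 1 < M := by omega
      have h := hu ⟨i.1 + 1, hm⟩
      rw [ih ⟨i.1 + 1, hm⟩ (by simp only; omega), mul_zero, Finset.sum_eq_single i] at h
      · rcases mul_eq_zero.1 h with h1 | h1
        · rw [hJ] at h1
          exact absurd h1 (hJ1 _ _ rfl)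
        · exact h1
      · intro b _ hb
        by_cases hb1 : M ≤ b.1 + 1 + m
        · rw [ih b hb1, mul_zero]
        · have : b.1 ≠ i.1 := fun h => hb (Fin.ext h)
          rw [hJ, hJ3 _ _ (show b.1 + 1 < i.1 + 1 by omega), zero_mul]
      · intro h; exact absurd (Finset.mem_univ _) h
  exact fun i => key M i (by omega)

/-- if `w` is an eigenvector orthogonal to `ξ` then `Z w` is orthogonal to `g` -/
theorem orth_g (hJ1 : ∀ i j : Fin M, i.1 + 1 = j.1 → J i j ≠ 0) (w : Fin M → ℝ) (μ : ℝ)
    (hw : ∀ i, ∑ k, J i k * w k = μ * w i) (hw0 : w ≠ 0) (ho : ∑ i, w i * ξ i = 0) :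
    γ * (∑ k, Z z k * w k) + γ' * (∑ k, Z l k * w k) = 0 := by
  have hwz : w z ≠ 0 := fun h => hw0 (funext fun i => ker_first hJ hJ3 hz hJ1 w μ hw h i)
  have hwl : w l ≠ 0 := fun h => hw0 (funext fun i => ker_last hJ hJ3 hl hJ1 w μ hw h i)
  set q : Fin M → ℝ := fun k => ∑ i, s i k * Z i k * w i with hq
  set v : Fin M → ℝ := fun k => ∑ i, Z k i * w i with hv
  have h2 : ∀ j, ∑ k, J j k * q k - μ * q j = (γ * w z - γ' * w l) * ξ j := by
    intro j
    have := vec_id' hJ hJ3 hZ hZ3 hcomm hz hl hzl hg hξz hξl w μ hw j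
    rw [ho, zero_mul, add_zero] at this
    exact this
  have h3 : ∀ j, ∑ k, J j k * v k - μ * v j = (γ * w z + γ' * w l) * ξ j := by
    intro j
    have e1 : ∑ k, J j k * v k = ∑ i, (∑ k, J j k * Z k i) * w i := by
      simp only [hv]
      simp_rw [Finset.mul_sum, Finset.sum_mul]
      rw [Finset.sum_comm]
      refine Finset.sum_congr rfl fun i _ => Finset.sum_congr rfl fun k _ => by ring
    have e2 : μ * v j = ∑ i, (∑ k, Z j k * J k i) * w i := by
      simp only [hv]
      simp_rw [Finset.sum_mul]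
      rw [Finset.sum_comm, Finset.mul_sum]
      refine Finset.sum_congr rfl fun i _ => ?_
      have : ∑ x, Z j i * J i x * w x = Z j i * ∑ x, J i x * w x := by
        rw [Finset.mul_sum]
        refine Finset.sum_congr rfl fun k _ => by ring
      rw [this, hw]; ring
    rw [e1, e2, ← Finset.sum_sub_distrib]
    simp_rw [← sub_mul, hcomm]
    have e3 : ∑ i, (ξ j * g i - g j * ξ i) * w i
        = ξ j * ∑ i, g i * w i - g j * ∑ i, w i * ξ i := by
      rw [Finset.mul_sum, Finset.mul_sum, ← Finset.sum_sub_distrib]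
      refine Finset.sum_congr rfl fun i _ => by ring
    have e4 : ∑ i, g i * w i = γ * w z + γ' * w l := by
      rw [Finset.sum_eq_add z l hzl]
      · rw [hg z, hg l, if_pos rfl, if_neg hzl.symm, if_pos rfl]
      · rintro c _ ⟨h1, h2⟩
        rw [hg c, if_neg h1, if_neg h2, zero_mul]
      · intro h; exact absurd (Finset.mem_univ _) h
      · intro h; exact absurd (Finset.mem_univ _) h
    rw [e3, e4, ho]; ring
  have hqz : q z = - v z := by
    simp only [hq, hv]
    rw [← Finset.sum_neg_distrib]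
    refine Finset.sum_congr rfl fun i _ => ?_
    by_cases hi : i = z
    · rw [hi, hZ3 z z le_rfl (by omega)]; ring
    · have : s i z = -1 := by
        have : i.1 ≠ z.1 := fun h => hi (Fin.ext h)
        unfold s; rw [if_neg (by rw [Fin.lt_def]; omega), if_pos (Fin.lt_def.2 (by omega))]
      rw [this, hZ i z]; ring
  have hql : q l = v l := by
    simp only [hq, hv]
    refine Finset.sum_congr rfl fun i _ => ?_
    by_cases hi : i = l
    · rw [hi, hZ3 l l le_rfl (by omega)]; ring
    · have : s i l = 1 := by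
        have : i.1 ≠ l.1 := fun h => hi (Fin.ext h)
        have := i.2
        unfold s; rw [if_pos (Fin.lt_def.2 (by omega))]
      rw [this, hZ i l]; ring
  -- the combination
  set a := γ * w z + γ' * w l with ha
  set b := γ * w z - γ' * w l with hb
  set κ := (a * q z - b * v z) / w z with hκ
  set u : Fin M → ℝ := fun k => a * q k - b * v k - κ * w k with hu
  have huz : u z = 0 := by
    simp only [hu, hκ]
    field_simp
    ring
  have huker : ∀ i, ∑ k, J i k * u k = μ * u i := by
    intro i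
    have : ∑ k, J i k * u k = a * ∑ k, J i k * q k - b * ∑ k, J i k * v k
        - κ * ∑ k, J i k * w k := by
      rw [Finset.mul_sum, Finset.mul_sum, Finset.mul_sum, ← Finset.sum_sub_distrib,
        ← Finset.sum_sub_distrib]
      refine Finset.sum_congr rfl fun k _ => ?_
      simp only [hu]; ring
    rw [this, hw]
    simp only [hu]
    linear_combination a * h2 i - b * h3 i
  have hul := ker_first hJ hJ3 hz hJ1 u μ huker huz l
  have hul' : a * q l - b * v l - κ * w l = 0 := hul
  have huz' : a * q z - b * v z - κ * w z = 0 := huz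
  rw [hql] at hul'
  rw [hqz] at huz'
  -- κ w_z = -2 γ w_z v_z, κ w_l = 2 γ' w_l v_l
  have k1 : κ = -(2 * γ * v z) := by
    have : (κ + 2 * γ * v z) * w z = 0 := by rw [ha, hb] at huz'; linarith
    rcases mul_eq_zero.1 this with h | h
    · linarith
    · exact absurd h hwz
  have k2 : κ = 2 * γ' * v l := by
    have : (κ - 2 * γ' * v l) * w l = 0 := by rw [ha, hb] at hul'; linarith
    rcases mul_eq_zero.1 this with h | h
    · linarith
    · exact absurd h hwl
  change γ * v z + γ' * v l = 0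
  linarith

end

end

end Pool.Agent.R2.TadCore
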