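import Pool.Agent.R2.TadCore

/-!
# Every matrix of the tadpole `T_{m,n}`, `m ≤ 2 n + 3`, has the strong spectral property
-/

set_option autoImplicit false

open Finset

namespace Pool.Agent.R2.TadMain

open Pool.Agent.R2.TadCore Pool.Agent.R2.Util

section

variable {A X : ℕ → ℕ → ℝ} {n M : ℕ}
  (hA : ∀ i j, A i j = A j i) (hX : ∀ i j, X i j = X j i)
  (hA0 : ∀ i j, i + 1 < j → j < n + 1 + M → ¬ (i = n ∧ j = n + M) → A i j = 0)
  (hA1 : ∀ i, i + 1 < n + 1 + M → A i (i + 1) ≠ 0)
  (hX0 : ∀ i, X i i = 0)
  (hX1 : ∀ i, i + 1 < n + 1 + M → X i (i + 1) = 0)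
  (hcomm : ∀ i j, i < n + 1 + M → j < n + 1 + M →
    ∑ k ∈ range (n + 1 + M), A i k * X k j = ∑ k ∈ range (n + 1 + M), X i k * A k j)

include hA hX hA0 hA1 hX0 hX1 hcomm

/-- the path part of `X` vanishes -/
theorem path_zero (hM : 2 ≤ M) : ∀ k i, i + k ≤ n → X i (i + k) = 0 := by
  intro k
  induction k using Nat.strong_induction_on with
  | _ k ih =>
  rcases Nat.lt_or_ge k 2 with hk | hk
  · intro i hi
    interval_cases k
    · exact hX0 i
    · exact hX1 i (by omega)
  obtain ⟨k, rfl⟩ : ∃ k', k = k' + 1 := ⟨k - 1, by omega⟩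
  intro i
  induction i with
  | zero =>
    intro hi
    have h := hcomm 0 k (by omega) (by omega)
    rw [Finset.sum_eq_zero, Finset.sum_eq_single (k + 1)] at h
    · rcases mul_eq_zero.1 h.symm with h1 | h1
      · simpa using h1
      · rw [hA] at h1; exact absurd h1 (hA1 k (by omega))
    · intro l hl hne
      rw [Finset.mem_range] at hl
      by_cases h1 : l ≤ k
      · have := ih l (by omega) 0 (by omega)
        rw [zero_add] at this
        rw [this, zero_mul]
      · rw [hA l k, hA0 k l (by omega) hl (by omega), mul_zero]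
    · intro h; exact absurd (Finset.mem_range.2 (by omega)) h
    · intro l hl
      rw [Finset.mem_range] at hl
      by_cases h1 : 1 < l
      · rw [hA0 0 l (by omega) hl (by omega), zero_mul]
      · have := ih (k - l) (by omega) l (by omega)
        rw [show l + (k - l) = k by omega] at this
        rw [this, mul_zero]
  | succ i ihi =>
    intro hi
    have h := hcomm (i + 1) (i + 1 + k) (by omega) (by omega)
    rw [Finset.sum_eq_zero, Finset.sum_eq_single (i + 1 + k + 1)] at h
    · rcases mul_eq_zero.1 h.symm with h1 | h1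
      · exact h1
      · rw [hA] at h1; exact absurd h1 (hA1 _ (by omega))
    · intro l hl hne
      rw [Finset.mem_range] at hl
      by_cases h1 : i + 1 + k + 1 < l
      · rw [hA l, hA0 _ l (by omega) hl (by omega), mul_zero]
      by_cases h2 : l + 1 < i + 1 + k
      · rw [hA0 l _ h2 (by omega) (by omega), mul_zero]
      · have := ih (l - (i + 1)) (by omega) (i + 1) (by omega)
        rw [show i + 1 + (l - (i + 1)) = l by omega] at this
        rw [this, zero_mul]
    · intro h; exact absurd (Finset.mem_range.2 (by omega)) h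
    · intro l hl
      rw [Finset.mem_range] at hl
      by_cases h1 : i + 2 < l
      · rw [hA0 (i + 1) l (by omega) hl (by omega), zero_mul]
      by_cases h2 : l < i
      · rw [hA (i + 1) l, hA0 l _ (by omega) (by omega) (by omega), zero_mul]
      by_cases h3 : l = i
      · have := ihi (by omega)
        rw [h3, show i + 1 + k = i + (k + 1) by omega, this, mul_zero]
      · have := ih (i + 1 + k - l) (by omega) l (by omega)
        rw [show l + (i + 1 + k - l) = i + 1 + k by omega] at this
        rw [this, mul_zero]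

theorem pp (hM : 2 ≤ M) {i j : ℕ} (hi : i ≤ n) (hj : j ≤ n) : X i j = 0 := by
  rcases le_total i j with h | h
  · have := path_zero hA hX hA0 hA1 hX0 hX1 hcomm hM (j - i) i (by omega)
    rwa [show i + (j - i) = j by omega] at this
  · have := path_zero hA hX hA0 hA1 hX0 hX1 hcomm hM (i - j) j (by omega)
    rw [show j + (i - j) = i by omega] at this
    rw [hX, this]

/-- if the columns of the path and of `c` vanish then everything vanishes -/
theorem block_zero (hM : 2 ≤ M) (hcol : ∀ i j, i < n + 1 + M → j ≤ n → X i j = 0) :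
    ∀ k i, n + 1 ≤ i → i + k < n + 1 + M → X i (i + k) = 0 := by
  intro k
  induction k using Nat.strong_induction_on with
  | _ k ih =>
  rcases Nat.lt_or_ge k 2 with hk | hk
  · intro i _ hi
    interval_cases k
    · exact hX0 i
    · exact hX1 i (by omega)
  obtain ⟨k, rfl⟩ : ∃ k', k = k' + 1 := ⟨k - 1, by omega⟩
  intro i hni
  induction i, hni using Nat.le_induction with
  | base =>
    intro hi
    have h := hcomm (n + 1) (n + 1 + k) (by omega) (by omega)
    rw [Finset.sum_eq_zero, Finset.sum_eq_single (n + 1 + (k + 1))] at h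
    · rcases mul_eq_zero.1 h.symm with h1 | h1
      · exact h1
      · rw [hA] at h1; exact absurd h1 (hA1 (n + 1 + k) (by omega))
    · intro l hl hne
      rw [Finset.mem_range] at hl
      by_cases h0 : l ≤ n
      · rw [hcol _ _ (by omega) h0, zero_mul]
      by_cases h1 : l ≤ n + 1 + k
      · have := ih (l - (n + 1)) (by omega) (n + 1) (by omega) (by omega)
        rw [show n + 1 + (l - (n + 1)) = l by omega] at this
        rw [this, zero_mul]
      · rw [hA l, hA0 _ l (by omega) hl (by omega), mul_zero]
    · intro h; exact absurd (Finset.mem_range.2 (by omega)) h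
    · intro l hl
      rw [Finset.mem_range] at hl
      by_cases h0 : l ≤ n
      · rw [hX l, hcol _ _ (by omega) h0, mul_zero]
      by_cases h1 : n + 1 + 1 < l
      · rw [hA0 _ l (by omega) hl (by omega), zero_mul]
      · have := ih (n + 1 + k - l) (by omega) l (by omega) (by omega)
        rw [show l + (n + 1 + k - l) = n + 1 + k by omega] at this
        rw [this, mul_zero]
  | succ i hni ihi =>
    intro hi
    have h := hcomm (i + 1) (i + 1 + k) (by omega) (by omega)
    rw [Finset.sum_eq_zero, Finset.sum_eq_single (i + 1 + (k + 1))] at h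
    · rcases mul_eq_zero.1 h.symm with h1 | h1
      · exact h1
      · rw [hA] at h1; exact absurd h1 (hA1 (i + 1 + k) (by omega))
    · intro l hl hne
      rw [Finset.mem_range] at hl
      by_cases h0 : l ≤ n
      · rw [hcol _ _ (by omega) h0, zero_mul]
      by_cases h1 : i + 1 + k + 1 < l
      · rw [hA l, hA0 _ l (by omega) hl (by omega), mul_zero]
      by_cases h2 : l + 1 < i + 1 + k
      · rw [hA0 l _ h2 (by omega) (by omega), mul_zero]
      · have := ih (l - (i + 1)) (by omega) (i + 1) (by omega) (by omega)
        rw [show i + 1 + (l - (i + 1)) = l by omega] at this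
        rw [this, zero_mul]
    · intro h; exact absurd (Finset.mem_range.2 (by omega)) h
    · intro l hl
      rw [Finset.mem_range] at hl
      by_cases h0 : l ≤ n
      · rw [hX l, hcol _ _ (by omega) h0, mul_zero]
      by_cases h1 : i + 2 < l
      · rw [hA0 (i + 1) l (by omega) hl (by omega), zero_mul]
      by_cases h2 : l < i
      · rw [hA (i + 1) l, hA0 l _ (by omega) (by omega) (by omega), zero_mul]
      by_cases h3 : l = i
      · have := ihi (by omega)
        rw [h3, show i + 1 + k = i + (k + 1) by omega, this, mul_zero]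
      · have := ih (i + 1 + k - l) (by omega) l (by omega) (by omega)
        rw [show l + (i + 1 + k - l) = i + 1 + k by omega] at this
        rw [this, mul_zero]

/-- if the first column vanishes, all columns of the path and of `c` vanish -/
theorem cols_zero (hM : 2 ≤ M) (h0 : ∀ i, i < n + 1 + M → X i 0 = 0) :
    ∀ j i, i < n + 1 + M → j ≤ n → X i j = 0 := by
  intro j
  induction j using Nat.strong_induction_on with
  | _ j ih =>
  rcases Nat.eq_zero_or_pos j with hj | hj
  · subst hj; intro i hi _; exact h0 i hi
  obtain ⟨j, rfl⟩ : ∃ k', j = k' + 1 := ⟨j - 1, by omega⟩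
  intro i hi hjn
  have h := hcomm i j hi (by omega)
  rw [Finset.sum_eq_zero, Finset.sum_eq_single (j + 1)] at h
  · rcases mul_eq_zero.1 h.symm with h1 | h1
    · exact h1
    · rw [hA] at h1; exact absurd h1 (hA1 _ (by omega))
  · intro l hl hne
    rw [Finset.mem_range] at hl
    by_cases h1 : l ≤ j
    · rw [ih l (by omega) i hi (by omega), zero_mul]
    · rw [hA l, hA0 j l (by omega) hl (by omega), mul_zero]
  · intro h; exact absurd (Finset.mem_range.2 (by omega)) h
  · intro l hl
    rw [Finset.mem_range] at hl
    rw [ih j (by omega) l hl (by omega), mul_zero]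

/-- from the two neighbours of `c` the zeros spread (first arc) -/
theorem spread_first (hM : 2 ≤ M) (hz : ∀ j, j ≤ n → X (n + 1) j = 0) :
    ∀ i j, i + j ≤ n → i < M → X (n + 1 + i) j = 0 := by
  intro i
  induction i using Nat.strong_induction_on with
  | _ i ih =>
  rcases Nat.eq_zero_or_pos i with hi | hi
  · subst hi; intro j hj _; exact hz j (by omega)
  obtain ⟨i, rfl⟩ : ∃ k', i = k' + 1 := ⟨i - 1, by omega⟩
  intro j hij hiM
  have h := hcomm (n + 1 + i) j (by omega) (by omega)
  rw [Finset.sum_eq_single (n + 1 + (i + 1)), Finset.sum_eq_zero] at h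
  · rcases mul_eq_zero.1 h with h1 | h1
    · exact absurd h1 (hA1 (n + 1 + i) (by omega))
    · exact h1
  · intro l hl
    rw [Finset.mem_range] at hl
    by_cases h1 : j + 1 < l
    · rw [hA l, hA0 j l h1 hl (by omega), mul_zero]
    · rw [ih i (by omega) l (by omega) (by omega), zero_mul]
  · intro l hl hne
    rw [Finset.mem_range] at hl
    by_cases h0 : l ≤ n
    · rw [pp hA hX hA0 hA1 hX0 hX1 hcomm hM h0 (by omega), mul_zero]
    by_cases h1 : n + 1 + i + 1 < l
    · rw [hA0 _ l h1 hl (by omega), zero_mul]
    · have := ih (l - (n + 1)) (by omega) j (by omega) (by omega)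
      rw [show n + 1 + (l - (n + 1)) = l by omega] at this
      rw [this, mul_zero]
  · intro h; exact absurd (Finset.mem_range.2 (by omega)) h

/-- from the two neighbours of `c` the zeros spread (last arc) -/
theorem spread_last (hM : 2 ≤ M) (hz : ∀ j, j ≤ n → X (n + M) j = 0) :
    ∀ i j, i + j ≤ n → i < M → X (n + M - i) j = 0 := by
  intro i
  induction i using Nat.strong_induction_on with
  | _ i ih =>
  rcases Nat.eq_zero_or_pos i with hi | hi
  · subst hi; intro j hj _; exact hz j (by omega)
  obtain ⟨i, rfl⟩ : ∃ k', i = k' + 1 := ⟨i - 1, by omega⟩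
  intro j hij hiM
  have h := hcomm (n + M - i) j (by omega) (by omega)
  rw [Finset.sum_eq_single (n + M - (i + 1)), Finset.sum_eq_zero] at h
  · rcases mul_eq_zero.1 h with h1 | h1
    · rw [hA] at h1
      have := hA1 (n + M - (i + 1)) (by omega)
      rw [show n + M - (i + 1) + 1 = n + M - i by omega] at this
      exact absurd h1 this
    · exact h1
  · intro l hl
    rw [Finset.mem_range] at hl
    by_cases h1 : j + 1 < l
    · rw [hA l, hA0 j l h1 hl (by omega), mul_zero]
    · rw [ih i (by omega) l (by omega) (by omega), zero_mul]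
  · intro l hl hne
    rw [Finset.mem_range] at hl
    by_cases h0 : l ≤ n
    · rw [pp hA hX hA0 hA1 hX0 hX1 hcomm hM h0 (by omega), mul_zero]
    by_cases h1 : l + 1 < n + M - i
    · rw [hA _ l, hA0 l _ h1 (by omega) (by omega), zero_mul]
    · have := ih (n + M - l) (by omega) j (by omega) (by omega)
      rw [show n + M - (n + M - l) = l by omega] at this
      rw [this, mul_zero]
  · intro h; exact absurd (Finset.mem_range.2 (by omega)) h


variable (hAc : A n (n + M) ≠ 0) (hXc : X n (n + M) = 0)

include hAc hXc

omit hX0 hX1 hcomm hA1 hXc hAc in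
theorem split_row (p : ℕ) (f : ℕ → ℝ) :
    ∑ k ∈ range (n + 1 + M), A (n + 1 + p) k * f k
      = A (n + 1 + p) n * f n + ∑ k : Fin M, A (n + 1 + p) (n + 1 + k) * f (n + 1 + k)
      ∨ M ≤ p := by
  rcases Nat.lt_or_ge p M with hp | hp
  · left
    rw [Finset.sum_range_add, Finset.sum_range (n := M)]
    congr 1
    rw [Finset.sum_eq_single n]
    · intro b hb hne
      rw [Finset.mem_range] at hb
      rw [hA, hA0 b _ (by omega) (by omega) (by omega), zero_mul]
    · intro h; exact absurd (Finset.mem_range.2 (by omega)) h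
  · right; exact hp

/-- `X` vanishes at the two neighbours of `c` on the cycle, against the whole path -/
theorem ends_zero (hn : 1 ≤ n) (hM : 2 ≤ M) (j : ℕ) (hj : j ≤ n) :
    X (n + 1) j = 0 ∧ X (n + M) j = 0 := by
  have hpp : ∀ {i j : ℕ}, i ≤ n → j ≤ n → X i j = 0 := fun hi hj =>
    pp hA hX hA0 hA1 hX0 hX1 hcomm hM hi hj
  set J : Fin M → Fin M → ℝ := fun p q => A (n + 1 + p) (n + 1 + q) with hJdef
  set Z : Fin M → Fin M → ℝ := fun p q => X (n + 1 + p) (n + 1 + q) with hZdef
  set ξ : Fin M → ℝ := fun q => X (n + 1 + q) n with hξdef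
  set g : Fin M → ℝ := fun q => A (n + 1 + q) n with hgdef
  set z : Fin M := ⟨0, by omega⟩ with hz
  set l : Fin M := ⟨M - 1, by omega⟩ with hl
  have hzl : z ≠ l := by
    intro h
    have := congrArg Fin.val h
    simp only [hz, hl] at this
    omega
  have hz1 : z.1 = 0 := rfl
  have hl1 : l.1 + 1 = M := by simp only [hl]; omega
  have hzn : n + 1 + z.1 = n + 1 := rfl
  have hln : n + 1 + l.1 = n + M := by omega
  have hJ : ∀ i j, J i j = J j i := fun i j => hA _ _
  have hJ3 : ∀ i j : Fin M, i.1 + 1 < j.1 → J i j = 0 := fun i j h =>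
    hA0 _ _ (by omega) (by have := j.2; omega) (by omega)
  have hJ1 : ∀ i j : Fin M, i.1 + 1 = j.1 → J i j ≠ 0 := by
    intro i j h
    have := hA1 (n + 1 + i) (by have := j.2; omega)
    simp only [hJdef]
    rw [← h]
    exact this
  have hZ : ∀ i j, Z i j = Z j i := fun i j => hX _ _
  have hZ3 : ∀ i j : Fin M, i.1 ≤ j.1 → j.1 ≤ i.1 + 1 → Z i j = 0 := by
    intro i j h1 h2
    simp only [hZdef]
    rcases Nat.eq_or_lt_of_le h1 with h | h
    · rw [← h]; exact hX0 _
    · rw [show j.1 = i.1 + 1 by omega]
      exact hX1 _ (by have := j.2; omega)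
  have hg : ∀ i, g i = if i = z then A (n + 1) n else if i = l then A (n + M) n else 0 := by
    intro i
    by_cases h1 : i = z
    · rw [if_pos h1, h1]; rfl
    rw [if_neg h1]
    by_cases h2 : i = l
    · rw [if_pos h2, h2]
      simp only [hgdef]
      rw [hln]
    · rw [if_neg h2]
      have e1 : i.1 ≠ 0 := fun h => h1 (Fin.ext h)
      have e2 : i.1 ≠ l.1 := fun h => h2 (Fin.ext h)
      simp only [hgdef]
      rw [hA]
      exact hA0 _ _ (by omega) (by omega) (by omega)
  have hξz : ξ z = 0 := by
    simp only [hξdef]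
    rw [hX]; exact hX1 n (by omega)
  have hξl : ξ l = 0 := by
    simp only [hξdef]
    rw [hln, hX]; exact hXc
  have hcJ : ∀ p q, ∑ k, J p k * Z k q - ∑ k, Z p k * J k q = ξ p * g q - g p * ξ q := by
    intro p q
    have h := hcomm (n + 1 + p) (n + 1 + q) (by omega) (by omega)
    rcases split_row hA hX hA0 p (fun k => X k (n + 1 + q)) with h1 | h1
    swap
    · have := p.2; omega
    rcases split_row hA hX hA0 q (fun k => X (n + 1 + p) k) with h2 | h2
    swap
    · have := q.2; omega
    have h3 : ∑ k ∈ range (n + 1 + M), X (n + 1 + p) k * A k (n + 1 + q)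
        = ∑ k ∈ range (n + 1 + M), A (n + 1 + q) k * X (n + 1 + p) k := by
      refine Finset.sum_congr rfl fun k _ => ?_
      rw [hA k]; ring
    have h4 : ∑ k : Fin M, A (n + 1 + q) (n + 1 + k) * X (n + 1 + p) (n + 1 + k)
        = ∑ k, Z p k * J k q := by
      refine Finset.sum_congr rfl fun k _ => ?_
      simp only [hZdef, hJdef]
      rw [hA (n + 1 + q)]; ring
    rw [h1, h3, h2, h4] at h
    simp only [hJdef, hZdef, hξdef, hgdef] at h ⊢
    rw [hX n (n + 1 + q)] at h
    linarith
  -- the eigenvectors
  have hJH : (Matrix.of J).IsHermitian := by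
    ext i j
    simp [Matrix.conjTranspose_apply, hJ i j]
  have hB : ∀ i j, ∑ q, bv hJH i q * X (n + 1 + q) j * ((A (n + 1) n) * bv hJH i z
      - A (n + M) n * bv hJH i l) = 0 ∨ n < j := by
    intro i j
    rcases Nat.lt_or_ge n j with hj | hj
    · right; exact hj
    left
    set w := bv hJH i with hw
    set μ := hJH.eigenvalues i with hμ
    have hwe : ∀ i, ∑ k, J i k * w k = μ * w i := by
      intro p
      have := congrFun (mulVec_bv hJH i) p
      simpa [Matrix.mulVec, dotProduct] using this
    have hw0 : w ≠ 0 := by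
      intro h
      have h1 := bv_orth hJH i i
      rw [if_pos rfl] at h1
      rw [← hw, h] at h1
      simp at h1
    rw [← Finset.sum_mul]
    by_cases hh : A (n + 1) n * w z - A (n + M) n * w l = 0
    · rw [hh, mul_zero]
    have hcn : ∑ i, w i * ξ i = 0 := by
      have := pairing hJ hJ3 hZ hZ3 hcJ hz1 hl1 hzl hg hξz hξl w μ hwe
      rcases mul_eq_zero.1 this with h | h
      · exact absurd h hh
      · exact h
    have hgv := orth_g hJ hJ3 hZ hZ3 hcJ hz1 hl1 hzl hg hξz hξl hJ1 w μ hwe hw0 hcn
    set c : ℕ → ℝ := fun j => ∑ q : Fin M, w q * X (n + 1 + q) j with hc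
    have hcol : ∀ j, j ≤ n → ∑ q : Fin M, w q * ∑ k ∈ range (n + 1 + M), A (n + 1 + q) k * X k j
        = μ * c j := by
      intro j hj
      have e1 : ∀ q : Fin M, ∑ k ∈ range (n + 1 + M), A (n + 1 + q) k * X k j
          = ∑ k, J q k * X (n + 1 + k) j := by
        intro q
        rcases split_row hA hX hA0 q (fun k => X k j) with h1 | h1
        · rw [h1, hpp le_rfl hj, mul_zero, zero_add]
        · have := q.2; omega
      simp_rw [e1, Finset.mul_sum]
      rw [Finset.sum_comm, hc, Finset.mul_sum]
      refine Finset.sum_congr rfl fun k _ => ?_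
      have : ∑ x, w x * (J x k * X (n + 1 + k) j) = (∑ x, J k x * w x) * X (n + 1 + k) j := by
        rw [Finset.sum_mul]
        refine Finset.sum_congr rfl fun x _ => ?_
        rw [hJ x k]; ring
      rw [this, hwe]; ring
    have hrow : ∀ j, j < n → ∑ q : Fin M, w q * ∑ k ∈ range (n + 1 + M), X (n + 1 + q) k * A k j
        = ∑ k ∈ range (n + 1), c k * A k j := by
      intro j hj
      have e1 : ∀ q : Fin M, ∑ k ∈ range (n + 1 + M), X (n + 1 + q) k * A k j
          = ∑ k ∈ range (n + 1), X (n + 1 + q) k * A k j := by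
        intro q
        rw [Finset.sum_range_add, add_eq_left]
        refine Finset.sum_eq_zero fun k hk => ?_
        rw [Finset.mem_range] at hk
        rw [hA, hA0 _ _ (by omega) (by omega) (by omega), mul_zero]
      simp_rw [e1, Finset.mul_sum]
      rw [Finset.sum_comm]
      refine Finset.sum_congr rfl fun k _ => ?_
      simp only [hc]
      rw [Finset.sum_mul]
      refine Finset.sum_congr rfl fun x _ => by ring
    have hE1 : ∀ j, j < n → μ * c j = ∑ k ∈ range (n + 1), c k * A k j := by
      intro j hj
      rw [← hcol j hj.le, ← hrow j hj]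
      refine Finset.sum_congr rfl fun q _ => ?_
      rw [hcomm _ _ (by omega) (by omega)]
    have hE3 : μ * c n = ∑ k ∈ range (n + 1), c k * A k n := by
      rw [← hcol n le_rfl]
      have e1 : ∀ q : Fin M, ∑ k ∈ range (n + 1 + M), A (n + 1 + q) k * X k n
          = ∑ k ∈ range (n + 1), X (n + 1 + q) k * A k n + ∑ k, Z q k * g k := by
        intro q
        rw [hcomm _ _ (by omega) (by omega), Finset.sum_range_add, Finset.sum_range (n := M)]
      simp_rw [e1, mul_add]
      rw [Finset.sum_add_distrib]
      have e2 : ∑ q, w q * ∑ k, Z q k * g k = 0 := by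
        have e3 : ∑ q, w q * ∑ k, Z q k * g k = ∑ k, g k * ∑ q, Z k q * w q := by
          simp_rw [Finset.mul_sum]
          rw [Finset.sum_comm]
          refine Finset.sum_congr rfl fun k _ => Finset.sum_congr rfl fun q _ => ?_
          rw [hZ q k]; ring
        rw [e3, Finset.sum_eq_add z l hzl]
        · rw [hg z, hg l, if_pos rfl, if_neg hzl.symm, if_pos rfl]
          exact hgv
        · rintro c _ ⟨h1, h2⟩
          rw [hg c, if_neg h1, if_neg h2, zero_mul]
        · intro h; exact absurd (Finset.mem_univ _) h
        · intro h; exact absurd (Finset.mem_univ _) h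
      rw [e2, add_zero]
      simp_rw [Finset.mul_sum]
      rw [Finset.sum_comm]
      refine Finset.sum_congr rfl fun k _ => ?_
      simp only [hc]
      rw [Finset.sum_mul]
      refine Finset.sum_congr rfl fun x _ => by ring
    have hcn' : c n = 0 := hcn
    -- downwards
    have hdown : ∀ t, t ≤ n → c (n - t) = 0 := by
      intro t
      induction t using Nat.strong_induction_on with
      | _ t ih =>
      rcases Nat.eq_zero_or_pos t with ht | ht
      · subst ht; intro _; exact hcn'
      obtain ⟨t, rfl⟩ : ∃ k', t = k' + 1 := ⟨t - 1, by omega⟩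
      intro htn
      have h : μ * c (n - t) = ∑ k ∈ range (n + 1), c k * A k (n - t) := by
        rcases Nat.eq_zero_or_pos t with h0 | h0
        · subst h0; exact hE3
        · exact hE1 (n - t) (by omega)
      rw [ih t (by omega) (by omega), mul_zero, Finset.sum_eq_single (n - (t + 1))] at h
      · rcases mul_eq_zero.1 h.symm with h1 | h1
        · exact h1
        · have := hA1 (n - (t + 1)) (by omega)
          rw [show n - (t + 1) + 1 = n - t by omega] at this
          exact absurd h1 this
      · intro k hk hne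
        rw [Finset.mem_range] at hk
        by_cases h1 : k + 1 < n - t
        · rw [hA0 k _ h1 (by omega) (by omega), mul_zero]
        · have := ih (n - k) (by omega) (by omega)
          rw [show n - (n - k) = k by omega] at this
          rw [this, zero_mul]
      · intro h; exact absurd (Finset.mem_range.2 (by omega)) h
    have := hdown (n - j) (by omega)
    rw [show n - (n - j) = j by omega] at this
    have h' : ∑ q : Fin M, w q * X (n + 1 + q) j = 0 := this
    rw [h', zero_mul]
  -- conclusion
  have hminus : A (n + 1) n * X (n + 1) j - A (n + M) n * X (n + M) j = 0 := by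
    have h0 : ∑ i, ∑ q, bv hJH i q * X (n + 1 + q) j * ((A (n + 1) n) * bv hJH i z
      - A (n + M) n * bv hJH i l) = 0 := by
      refine Finset.sum_eq_zero fun i _ => ?_
      rcases hB i j with h | h
      · exact h
      · omega
    rw [Finset.sum_comm] at h0
    have h1 : ∀ q : Fin M, ∑ i, bv hJH i q * X (n + 1 + q) j * ((A (n + 1) n) * bv hJH i z
      - A (n + M) n * bv hJH i l) = X (n + 1 + q) j * (A (n + 1) n * (if q = z then 1 else 0)
        - A (n + M) n * (if q = l then 1 else 0)) := by
      intro q
      rw [← bv_compl hJH q z, ← bv_compl hJH q l, Finset.mul_sum, Finset.mul_sum,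
        ← Finset.sum_sub_distrib, Finset.mul_sum]
      refine Finset.sum_congr rfl fun i _ => by ring
    simp_rw [h1] at h0
    rw [Finset.sum_eq_add z l hzl] at h0
    · rw [if_pos rfl, if_neg hzl, if_neg hzl.symm, if_pos rfl, hln, hzn] at h0
      linarith
    · rintro c _ ⟨h1, h2⟩
      rw [if_neg h1, if_neg h2]; ring
    · intro h; exact absurd (Finset.mem_univ _) h
    · intro h; exact absurd (Finset.mem_univ _) h
  have hplus : A (n + 1) n * X (n + 1) j + A (n + M) n * X (n + M) j = 0 := by
    rcases Nat.eq_or_lt_of_le hj with h | h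
    · rw [h]
      have e1 : X (n + 1) n = 0 := hξz
      have e2 : X (n + M) n = 0 := by rw [hX]; exact hXc
      rw [e1, e2]; ring
    · have h1 := hcomm n j (by omega) (by omega)
      rw [Finset.sum_range_add, Finset.sum_eq_zero, zero_add, Finset.sum_range (n := M),
        Finset.sum_eq_add z l hzl] at h1
      · rw [hzn, hln, hA n (n + 1), hA n (n + M)] at h1
        rw [h1]
        refine Finset.sum_eq_zero fun k hk => ?_
        rw [Finset.mem_range] at hk
        by_cases h2 : k ≤ n
        · rw [hpp le_rfl h2, zero_mul]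
        · rw [hA, hA0 _ _ (by omega) (by omega) (by omega), mul_zero]
      · rintro c _ ⟨h1, h2⟩
        have h3 := hg c
        rw [if_neg h1, if_neg h2] at h3
        have h4 : A n (n + 1 + c) = 0 := by rw [hA]; exact h3
        rw [h4, zero_mul]
      · intro h; exact absurd (Finset.mem_univ _) h
      · intro h; exact absurd (Finset.mem_univ _) h
      · intro k hk
        rw [Finset.mem_range] at hk
        rw [hpp (by omega) hj, mul_zero]
  have hγ : A (n + 1) n ≠ 0 := by
    rw [hA]; exact hA1 n (by omega)
  have hγ' : A (n + M) n ≠ 0 := by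
    rw [hA]; exact hAc
  constructor
  · have : A (n + 1) n * X (n + 1) j = 0 := by linarith
    exact (mul_eq_zero.1 this).resolve_left hγ
  · have : A (n + M) n * X (n + M) j = 0 := by linarith
    exact (mul_eq_zero.1 this).resolve_left hγ'

/-- **all of `X` vanishes** -/
theorem all_zero (hn : 1 ≤ n) (hM : 2 ≤ M) (hMn : M ≤ 2 * n + 2) (i j : ℕ)
    (hi : i < n + 1 + M) (hj : j < n + 1 + M) : X i j = 0 := by
  have h0 : ∀ i, i < n + 1 + M → X i 0 = 0 := by
    intro i hi
    by_cases h1 : i ≤ n
    · exact pp hA hX hA0 hA1 hX0 hX1 hcomm hM h1 (Nat.zero_le _)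
    by_cases h2 : i ≤ n + 1 + n
    · have := spread_first hA hX hA0 hA1 hX0 hX1 hcomm hM
        (fun j hj => (ends_zero hA hX hA0 hA1 hX0 hX1 hcomm hAc hXc hn hM j hj).1)
        (i - (n + 1)) 0 (by omega) (by omega)
      rwa [show n + 1 + (i - (n + 1)) = i by omega] at this
    · have := spread_last hA hX hA0 hA1 hX0 hX1 hcomm hM
        (fun j hj => (ends_zero hA hX hA0 hA1 hX0 hX1 hcomm hAc hXc hn hM j hj).2)
        (n + M - i) 0 (by omega) (by omega)
      rwa [show n + M - (n + M - i) = i by omega] at this
  have hcol := cols_zero hA hX hA0 hA1 hX0 hX1 hcomm hM h0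
  by_cases h1 : j ≤ n
  · exact hcol j i hi h1
  by_cases h2 : i ≤ n
  · rw [hX]; exact hcol i j hj h2
  have hb := block_zero hA hX hA0 hA1 hX0 hX1 hcomm hM (fun i j hi hj => hcol j i hi hj)
  rcases le_total i j with h | h
  · have := hb (j - i) i (by omega) (by omega)
    rwa [show i + (j - i) = j by omega] at this
  · have := hb (i - j) j (by omega) (by omega)
    rw [show j + (i - j) = i by omega] at this
    rw [hX, this]

end

end Pool.Agent.R2.TadMain
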