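import Mathlib

/-!
# Matrices commuting with the matrix of a graph with a pendant path

The vertices `0, …, n-1` form a pendant path attached at the vertex `n`; the other vertices are
`n+1, …, n+M`.
-/

set_option autoImplicit false

open Finset Matrix

namespace Pool.Agent.R2.TailCore

/-- Cayley-Hamilton: moments that vanish up to the order vanish for all exponents -/
theorem moments {M : ℕ} (J : Matrix (Fin M) (Fin M) ℝ) (g x : Fin M → ℝ)
    (h : ∀ k, k < M → g ⬝ᵥ (J ^ k).mulVec x = 0) : ∀ k, g ⬝ᵥ (J ^ k).mulVec x = 0 := by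
  intro k
  induction k using Nat.strong_induction_on with
  | _ k ih =>
  rcases Nat.lt_or_ge k M with hk | hk
  · exact h k hk
  have hch := Matrix.aeval_self_charpoly J
  rw [Polynomial.aeval_eq_sum_range, Matrix.charpoly_natDegree_eq_dim, Fintype.card_fin,
    Finset.sum_range_succ] at hch
  have hmon : J.charpoly.coeff M = 1 := by
    have := J.charpoly_monic.coeff_natDegree
    rwa [Matrix.charpoly_natDegree_eq_dim, Fintype.card_fin] at this
  rw [hmon, one_smul] at hch
  have hJM : J ^ M = -∑ i ∈ range M, J.charpoly.coeff i • J ^ i := by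
    rw [eq_neg_iff_add_eq_zero, add_comm]; exact hch
  obtain ⟨t, rfl⟩ : ∃ t, k = t + M := ⟨k - M, by omega⟩
  rw [pow_add, hJM, mul_neg, Matrix.neg_mulVec, dotProduct_neg, neg_eq_zero, Finset.mul_sum,
    Matrix.sum_mulVec, dotProduct_sum]
  refine Finset.sum_eq_zero fun i hi => ?_
  rw [Finset.mem_range] at hi
  rw [Matrix.mul_smul, Matrix.smul_mulVec, dotProduct_smul, ← pow_add, ih _ (by omega), smul_zero]

section

variable {A X : ℕ → ℕ → ℝ} {n M : ℕ}
  (hA : ∀ i j, A i j = A j i) (hX : ∀ i j, X i j = X j i)
  (hA0 : ∀ i j, i < n → i + 1 < j → j < n + 1 + M → A i j = 0)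
  (hA1 : ∀ i, i < n → A i (i + 1) ≠ 0)
  (hX0 : ∀ i, X i i = 0)
  (hX1 : ∀ i, i < n → X i (i + 1) = 0)
  (hcomm : ∀ i j, i < n + 1 + M → j < n + 1 + M →
    ∑ k ∈ range (n + 1 + M), A i k * X k j = ∑ k ∈ range (n + 1 + M), X i k * A k j)

include hA hX hA0 hA1 hX0 hX1 hcomm

/-- the path part of `X` vanishes -/
theorem path_zero : ∀ k i, i + k ≤ n → X i (i + k) = 0 := by
  intro k
  induction k using Nat.strong_induction_on with
  | _ k ih =>
  rcases Nat.lt_or_ge k 2 with hk | hk
  · intro i hi
    interval_cases k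
    · exact hX0 i
    · exact hX1 i (by omega)
  obtain ⟨k, rfl⟩ : ∃ k', k = k' + 1 := ⟨k - 1, by omega⟩
  intro i
  induction i with
  | zero =>
    intro hi
    have h := hcomm 0 k (by omega) (by omega)
    rw [Finset.sum_eq_zero, Finset.sum_eq_single (k + 1)] at h
    · rcases mul_eq_zero.1 h.symm with h1 | h1
      · simpa using h1
      · rw [hA] at h1; exact absurd h1 (hA1 k (by omega))
    · intro l hl hne
      rw [Finset.mem_range] at hl
      by_cases h1 : l ≤ k
      · have := ih l (by omega) 0 (by omega)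
        rw [zero_add] at this
        rw [this, zero_mul]
      · rw [hA l k, hA0 k l (by omega) (by omega) hl, mul_zero]
    · intro h; exact absurd (Finset.mem_range.2 (by omega)) h
    · intro l hl
      rw [Finset.mem_range] at hl
      by_cases h1 : 1 < l
      · rw [hA0 0 l (by omega) (by omega) hl, zero_mul]
      · have := ih (k - l) (by omega) l (by omega)
        rw [show l + (k - l) = k by omega] at this
        rw [this, mul_zero]
  | succ i ihi =>
    intro hi
    have h := hcomm (i + 1) (i + 1 + k) (by omega) (by omega)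
    rw [Finset.sum_eq_zero, Finset.sum_eq_single (i + 1 + k + 1)] at h
    · rcases mul_eq_zero.1 h.symm with h1 | h1
      · exact h1
      · rw [hA] at h1; exact absurd h1 (hA1 _ (by omega))
    · intro l hl hne
      rw [Finset.mem_range] at hl
      by_cases h1 : i + 1 + k + 1 < l
      · rw [hA l, hA0 _ l (by omega) (by omega) hl, mul_zero]
      by_cases h2 : l + 1 < i + 1 + k
      · rw [hA0 l _ (by omega) h2 (by omega), mul_zero]
      · have := ih (l - (i + 1)) (by omega) (i + 1) (by omega)
        rw [show i + 1 + (l - (i + 1)) = l by omega] at this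
        rw [this, zero_mul]
    · intro h; exact absurd (Finset.mem_range.2 (by omega)) h
    · intro l hl
      rw [Finset.mem_range] at hl
      by_cases h1 : i + 2 < l
      · rw [hA0 (i + 1) l (by omega) (by omega) hl, zero_mul]
      by_cases h2 : l < i
      · rw [hA (i + 1) l, hA0 l _ (by omega) (by omega) (by omega), zero_mul]
      by_cases h3 : l = i
      · have := ihi (by omega)
        rw [h3, show i + 1 + k = i + (k + 1) by omega, this, mul_zero]
      · have := ih (i + 1 + k - l) (by omega) l (by omega)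
        rw [show l + (i + 1 + k - l) = i + 1 + k by omega] at this
        rw [this, mul_zero]

theorem pp {i j : ℕ} (hi : i ≤ n) (hj : j ≤ n) : X i j = 0 := by
  rcases le_total i j with h | h
  · have := path_zero hA hX hA0 hA1 hX0 hX1 hcomm (j - i) i (by omega)
    rwa [show i + (j - i) = j by omega] at this
  · have := path_zero hA hX hA0 hA1 hX0 hX1 hcomm (i - j) j (by omega)
    rw [show j + (i - j) = i by omega] at this
    rw [hX, this]

/-- the matrix of the rest -/
def J (A : ℕ → ℕ → ℝ) (n M : ℕ) : Matrix (Fin M) (Fin M) ℝ :=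
  Matrix.of fun p q => A (n + 1 + p) (n + 1 + q)

/-- the columns of `X` on the rest -/
def col (X : ℕ → ℕ → ℝ) (n M j : ℕ) : Fin M → ℝ := fun q => X (n + 1 + q) j

/-- `J` acts on the columns of the path as the path matrix -/
theorem J_col (j : ℕ) (hj : j < n) :
    (J A n M).mulVec (col X n M j) = ∑ k ∈ range (n + 1), A k j • col X n M k := by
  ext q
  have h := hcomm (n + 1 + q) j (by omega) (by omega)
  rw [Finset.sum_range_add _ (n + 1) M, Finset.sum_range_add _ (n + 1) M, Finset.sum_eq_zero, zero_add,
    Finset.sum_range (n := M), Finset.sum_eq_zero (s := range M), add_zero] at h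
  · rw [Finset.sum_apply]
    simp only [Matrix.mulVec, dotProduct, J, col, Matrix.of_apply, Pi.smul_apply, smul_eq_mul]
    rw [h]
    refine Finset.sum_congr rfl fun k _ => by ring
  · intro k hk
    rw [Finset.mem_range] at hk
    rw [hA, hA0 j _ hj (by omega) (by omega), mul_zero]
  · intro k hk
    rw [Finset.mem_range] at hk
    rw [pp hA hX hA0 hA1 hX0 hX1 hcomm (by omega) hj.le, mul_zero]

/-- the row of the attaching vertex -/
def gv (A : ℕ → ℕ → ℝ) (n M : ℕ) : Fin M → ℝ := fun q => A n (n + 1 + q)

theorem g_col (hXn : ∀ q : Fin M, A n (n + 1 + q) * X n (n + 1 + q) = 0) (j : ℕ) (hj : j ≤ n) :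
    gv A n M ⬝ᵥ col X n M j = 0 := by
  simp only [dotProduct, gv, col]
  rcases Nat.eq_or_lt_of_le hj with h | h
  · refine Finset.sum_eq_zero fun q _ => ?_
    rw [h, hX (n + 1 + q) n]
    exact hXn q
  · have h1 := hcomm n j (by omega) (by omega)
    rw [Finset.sum_range_add, Finset.sum_eq_zero, zero_add, Finset.sum_range (n := M)] at h1
    · rw [h1]
      refine Finset.sum_eq_zero fun k hk => ?_
      rw [Finset.mem_range] at hk
      by_cases h2 : k ≤ n
      · rw [pp hA hX hA0 hA1 hX0 hX1 hcomm le_rfl h2, zero_mul]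
      · rw [hA, hA0 _ _ h (by omega) (by omega), mul_zero]
    · intro k hk
      rw [Finset.mem_range] at hk
      rw [pp hA hX hA0 hA1 hX0 hX1 hcomm (by omega) hj, mul_zero]

theorem mom_low (hXn : ∀ q : Fin M, A n (n + 1 + q) * X n (n + 1 + q) = 0) :
    ∀ k j, k + j ≤ n → gv A n M ⬝ᵥ (J A n M ^ k).mulVec (col X n M j) = 0 := by
  intro k
  induction k with
  | zero =>
    intro j hj
    rw [pow_zero, Matrix.one_mulVec]
    exact g_col hA hX hA0 hA1 hX0 hX1 hcomm hXn j (by omega)
  | succ k ih =>
    intro j hj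
    rw [pow_succ, ← Matrix.mulVec_mulVec, J_col hA hX hA0 hA1 hX0 hX1 hcomm j (by omega),
      Matrix.mulVec_sum, dotProduct_sum]
    refine Finset.sum_eq_zero fun l hl => ?_
    rw [Finset.mem_range] at hl
    rw [Matrix.mulVec_smul, dotProduct_smul]
    by_cases h1 : l ≤ j + 1
    · rw [ih l (by omega), smul_zero]
    · rw [hA, hA0 j l (by omega) (by omega) (by omega), zero_smul]

/-- all moments vanish as soon as the tail is long enough -/
theorem mom_all (hXn : ∀ q : Fin M, A n (n + 1 + q) * X n (n + 1 + q) = 0) (hM : M ≤ n + 1) :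
    ∀ j, j ≤ n → ∀ k, gv A n M ⬝ᵥ (J A n M ^ k).mulVec (col X n M j) = 0 := by
  intro j
  induction j using Nat.strong_induction_on with
  | _ j ih =>
  rcases Nat.eq_zero_or_pos j with h0 | h0
  · subst h0
    intro _
    exact moments _ _ _ fun k hk => mom_low hA hX hA0 hA1 hX0 hX1 hcomm hXn k 0 (by omega)
  obtain ⟨j, rfl⟩ : ∃ k', j = k' + 1 := ⟨j - 1, by omega⟩
  intro hj k
  have h1 := J_col hA hX hA0 hA1 hX0 hX1 hcomm j (by omega)
  have h2 : gv A n M ⬝ᵥ (J A n M ^ (k + 1)).mulVec (col X n M j) = 0 :=
    ih j (by omega) (by omega) (k + 1)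
  rw [pow_succ, ← Matrix.mulVec_mulVec, h1, Matrix.mulVec_sum, dotProduct_sum,
    Finset.sum_eq_single (j + 1)] at h2
  · rw [Matrix.mulVec_smul, dotProduct_smul, smul_eq_mul] at h2
    refine (mul_eq_zero.1 h2).resolve_left ?_
    rw [hA]; exact hA1 j (by omega)
  · intro l hl hne
    rw [Finset.mem_range] at hl
    rw [Matrix.mulVec_smul, dotProduct_smul]
    by_cases h3 : l ≤ j
    · rw [ih l (by omega) (by omega) k, smul_zero]
    · rw [hA, hA0 j l (by omega) (by omega) (by omega), zero_smul]
  · intro h; exact absurd (Finset.mem_range.2 (by omega)) h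

/-- **the quadratic form of `Z` at the row of the attaching vertex vanishes** -/
theorem gZg (hXn : ∀ q : Fin M, A n (n + 1 + q) * X n (n + 1 + q) = 0) (hM : M ≤ n + 1) :
    ∑ p : Fin M, A n (n + 1 + p) * ∑ q : Fin M, X (n + 1 + p) (n + 1 + q) * A n (n + 1 + q) = 0 := by
  have h1 := mom_all hA hX hA0 hA1 hX0 hX1 hcomm hXn hM n le_rfl 1
  rw [pow_one] at h1
  have h2 : (J A n M).mulVec (col X n M n) = ∑ k ∈ range (n + 1), A k n • col X n M k
      + fun p : Fin M => ∑ q : Fin M, X (n + 1 + p) (n + 1 + q) * A n (n + 1 + q) := by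
    ext q
    have h := hcomm (n + 1 + q) n (by omega) (by omega)
    rw [Finset.sum_range_add _ (n + 1) M, Finset.sum_range_add _ (n + 1) M, Finset.sum_eq_zero, zero_add,
      Finset.sum_range (n := M), Finset.sum_range (n := M)] at h
    · rw [Pi.add_apply, Finset.sum_apply]
      simp only [Matrix.mulVec, dotProduct, J, col, Matrix.of_apply, Pi.smul_apply, smul_eq_mul]
      rw [h]
      congr 1
      · refine Finset.sum_congr rfl fun k _ => by ring
      · refine Finset.sum_congr rfl fun k _ => ?_
        rw [hA n]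
    · intro k hk
      rw [Finset.mem_range] at hk
      rw [pp hA hX hA0 hA1 hX0 hX1 hcomm (by omega) le_rfl, mul_zero]
  rw [h2, dotProduct_add, dotProduct_sum, Finset.sum_eq_zero, zero_add] at h1
  · exact h1
  · intro k hk
    rw [Finset.mem_range] at hk
    rw [dotProduct_smul, g_col hA hX hA0 hA1 hX0 hX1 hcomm hXn k (by omega), smul_zero]

/-- if the last column and the rest vanish then everything vanishes -/
theorem descend (hξ : ∀ i, i < n + 1 + M → X i n = 0)
    (hZ : ∀ i j, n < i → n < j → i < n + 1 + M → j < n + 1 + M → X i j = 0) :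
    ∀ i j, i < n + 1 + M → j < n + 1 + M → X i j = 0 := by
  have key : ∀ t, t ≤ n → ∀ i, i < n + 1 + M → X i (n - t) = 0 := by
    intro t
    induction t using Nat.strong_induction_on with
    | _ t ih =>
    rcases Nat.eq_zero_or_pos t with h0 | h0
    · subst h0; intro _ i hi; exact hξ i hi
    obtain ⟨t, rfl⟩ : ∃ k', t = k' + 1 := ⟨t - 1, by omega⟩
    intro htn i hi
    by_cases hin : i ≤ n
    · exact pp hA hX hA0 hA1 hX0 hX1 hcomm hin (by omega)
    have h := hcomm i (n - t) hi (by omega)
    rw [Finset.sum_eq_zero, Finset.sum_eq_single (n - (t + 1))] at h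
    · rcases mul_eq_zero.1 h.symm with h1 | h1
      · exact h1
      · have := hA1 (n - (t + 1)) (by omega)
        rw [show n - (t + 1) + 1 = n - t by omega] at this
        exact absurd h1 this
    · intro l hl hne
      rw [Finset.mem_range] at hl
      by_cases h1 : l + 1 < n - t
      · rw [hA0 l _ (by omega) h1 (by omega), mul_zero]
      by_cases h2 : l ≤ n
      · have := ih (n - l) (by omega) (by omega) i hi
        rw [show n - (n - l) = l by omega] at this
        rw [this, zero_mul]
      · rw [hZ i l (by omega) (by omega) hi hl, zero_mul]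
    · intro h; exact absurd (Finset.mem_range.2 (by omega)) h
    · intro l hl
      rw [Finset.mem_range] at hl
      rw [ih t (by omega) (by omega) l hl, mul_zero]
  intro i j hi hj
  by_cases h1 : j ≤ n
  · have := key (n - j) (by omega) i hi
    rwa [show n - (n - j) = j by omega] at this
  by_cases h2 : i ≤ n
  · have := key (n - i) (by omega) j hj
    rw [show n - (n - i) = i by omega] at this
    rw [hX, this]
  · exact hZ i j (by omega) (by omega) hi hj

end

end Pool.Agent.R2.TailCore
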